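import Pool.Agent.Helper82.Wilf.Two

set_option autoImplicit false

namespace Pool.Agent.Helper82.Wilf

open Finset Pool.Agent.Helper60.Wilf

variable {S : AddSubmonoid ℕ} {c m : ℕ}

/-- distinct Apery elements: partial sums of `lam` -/
theorem list_le (H : Sg S c m) (l : List ℕ) (hnd : l.Nodup) (hl : ∀ x ∈ l, Ap S m x) :
    (l.map (lam c m)).sum ≤ ∑ x ∈ A0 S c m, lam c m x := by
  classical
  rw [← List.sum_toFinset (lam c m) hnd]
  apply sum_le_sum_of_subset
  intro x hx
  rw [List.mem_toFinset] at hx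
  exact (mem_A0 H).mpr (hl x hx)

/-- a primitive divisor -/
theorem prim_div (H : Sg S c m) (y : ℕ) (hy : Ap S m y) :
    ∃ u, Ap S m u ∧ Prim S u ∧ (u = y ∨ ∃ y', Ap S m y' ∧ u + y' = y) := by
  induction y using Nat.strong_induction_on with
  | _ y ih =>
    by_cases hp : Prim S y
    · exact ⟨y, hy, hp, Or.inl rfl⟩
    · obtain ⟨a, b, ha, hb, hab⟩ := H.not_prim hy hp
      have h1 := H.ap_gt hb
      obtain ⟨u, hu, hup, h | ⟨y', hy', h⟩⟩ := ih a (by omega) ha
      · subst h; exact ⟨u, hu, hup, Or.inr ⟨b, hb, hab⟩⟩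
      · have hb0 : b ≠ 0 := by omega
        have hy0 : y' ≠ 0 := by have := H.ap_gt hy'; omega
        refine ⟨u, hu, hup, Or.inr ⟨y' + b, ?_, by omega⟩⟩
        exact H.ap_part hy (S.add_mem hy'.1 hb.1) hu.1 (by omega) (by omega)

/-- decomposable Apery elements split off a primitive element -/
theorem dec (H : Sg S c m) {z : ℕ} (hz : Ap S m z) (hnp : ¬ Prim S z) :
    ∃ x y, Ap S m x ∧ Prim S x ∧ Ap S m y ∧ x + y = z := by
  obtain ⟨u, hu, hup, h | ⟨y', hy', h⟩⟩ := prim_div H z hz
  · subst h; exact absurd hup hnp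
  · exact ⟨u, y', hu, hup, hy', h⟩

theorem prim_ne (H : Sg S c m) {x a b : ℕ} (hx : Prim S x) (ha : Ap S m a) (hb : Ap S m b) :
    x ≠ a + b := by
  intro h
  have h1 := hx.2.2 a ha.1 b hb.1 h.symm
  have h2 := H.ap_gt ha
  have h3 := H.ap_gt hb
  omega

/-- no sum of three distinct primitive elements is an Apery element if the total weight is small -/
theorem no_sqf (H : Sg S c m) (hq : 4 ≤ lam c m 0)
    (hL : ∑ x ∈ A0 S c m, lam c m x ≤ 2 * lam c m 0) {u v w : ℕ}
    (hu : Ap S m u) (hup : Prim S u) (hv : Ap S m v) (hvp : Prim S v)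
    (hw : Ap S m w) (hwp : Prim S w) (huv : u ≠ v) (huw : u ≠ w) (hvw : v ≠ w) :
    ¬ Ap S m (u + v + w) := by
  intro h
  have gu := H.ap_gt hu
  have gv := H.ap_gt hv
  have gw := H.ap_gt hw
  have hlt := H.ap_lt h
  have h1 : Ap S m (u + v) := H.ap_part h (S.add_mem hu.1 hv.1) hw.1 rfl (by omega)
  have h2 : Ap S m (u + w) := H.ap_part h (S.add_mem hu.1 hw.1) hv.1 (by omega) (by omega)
  have h3 : Ap S m (v + w) := H.ap_part h (S.add_mem hv.1 hw.1) hu.1 (by omega) (by omega)
  have p1 := prim_ne H hup hv hw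
  have p2 := prim_ne H hvp hu hw
  have p3 := prim_ne H hwp hu hv
  have hs := list_le H [u, v, w, u + v, u + w, v + w] (by
    simp only [List.nodup_cons, List.mem_cons, List.not_mem_nil, or_false, not_or,
      not_false_eq_true, List.nodup_nil, and_true]
    omega) (by
    intro x hx
    simp only [List.mem_cons, List.not_mem_nil, or_false] at hx
    rcases hx with rfl | rfl | rfl | rfl | rfl | rfl <;> assumption)
  simp only [List.map_cons, List.map_nil, List.sum_cons, List.sum_nil] at hs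
  have r1 := rule (c := c) (x := u) (y := v + w) H.hm0 (by omega)
  have r2 := rule (c := c) (x := v) (y := u + w) H.hm0 (by omega)
  have r3 := rule (c := c) (x := w) (y := u + v) H.hm0 (by omega)
  omega

theorem arith_alpha (p q n L ρ A B C s b1 b2 t : ℕ) (hq : 4 ≤ q) (hL : A + B + C ≤ L)
    (hL2 : L ≤ 2 * q) (hA : q ≤ A + 1) (hB : q ≤ B + 1) (hC : s + t + b1 + b2 ≤ C)
    (hn : n ≤ 5 + 2 * b1 + b2 + 2 * s + t) (hn2 : n ≤ 2 * p) (hp : 3 + s ≤ p) (ht : t ≤ s)
    (hb2 : b2 ≤ 1) (hr1 : A + 1 = q ∨ B + 1 = q → 1 ≤ ρ)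
    (hr2 : A + 1 = q → B + 1 = q → 4 ≤ ρ) (hW : p * L + ρ = q * n) : False := by
  have hn9 : n ≤ 9 := by omega
  have hp' : p = 3 ∨ p = 4 ∨ p = 5 ∨ 6 ≤ p := by omega
  rcases hp' with rfl | rfl | rfl | h6
  · interval_cases n <;> omega
  · interval_cases n <;> omega
  · interval_cases n <;> omega
  · have := Nat.mul_le_mul_right L h6
    interval_cases n <;> omega

/-- the context of the case `2 u + w` -/
structure AC (S : AddSubmonoid ℕ) (c m u w : ℕ) : Prop where
  H : Sg S c m
  hq : 4 ≤ lam c m 0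
  hL : ∑ x ∈ A0 S c m, lam c m x ≤ 2 * lam c m 0
  hu : Ap S m u
  hup : Prim S u
  hw : Ap S m w
  hwp : Prim S w
  hne : u ≠ w
  h : Ap S m (u + (u + w))

namespace AC

variable {u w : ℕ}

theorem huw (a : AC S c m u w) : Ap S m (u + w) :=
  a.H.ap_part a.h (S.add_mem a.hu.1 a.hw.1) a.hu.1 (by omega)
    (by have := a.H.ap_gt a.hu; omega)

theorem huu (a : AC S c m u w) : Ap S m (u + u) :=
  a.H.ap_part a.h (S.add_mem a.hu.1 a.hu.1) a.hw.1 (by omega)
    (by have := a.H.ap_gt a.hu; omega)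

/-- outside the four elements `u, w, 2u, u + w` -/
def Out (S : AddSubmonoid ℕ) (m u w x : ℕ) : Prop :=
  Ap S m x ∧ x ≠ u ∧ x ≠ w ∧ x ≠ u + u ∧ x ≠ u + w

theorem key (a : AC S c m u w) (Q : Finset ℕ) (hQ : ∀ x ∈ Q, Out S m u w x) :
    ∑ x ∈ Q, lam c m x + (lam c m u + lam c m w + lam c m (u + u) + lam c m (u + w)) ≤
      ∑ x ∈ A0 S c m, lam c m x := by
  classical
  have gu := a.H.ap_gt a.hu
  have gw := a.H.ap_gt a.hw
  have p3 := prim_ne a.H a.hwp a.hu a.hu
  have hne := a.hne
  have h1 : ∑ x ∈ ({u, w, u + u, u + w} : Finset ℕ), lam c m x =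
      lam c m u + lam c m w + lam c m (u + u) + lam c m (u + w) := by
    rw [sum_insert, sum_insert, sum_insert, sum_singleton]
    · ring
    · rw [mem_singleton]; omega
    · simp only [mem_insert, mem_singleton]; omega
    · simp only [mem_insert, mem_singleton]; omega
  rw [← h1, ← sum_union]
  · apply sum_le_sum_of_subset
    intro x hx
    rw [mem_A0 a.H]
    rcases mem_union.mp hx with hx | hx
    · exact (hQ x hx).1
    · simp only [mem_insert, mem_singleton] at hx
      rcases hx with rfl | rfl | rfl | rfl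
      · exact a.hu
      · exact a.hw
      · exact a.huu
      · exact a.huw
  · rw [disjoint_left]
    intro x hx hx'
    obtain ⟨-, h1, h2, h3, h4⟩ := hQ x hx
    simp only [mem_insert, mem_singleton] at hx'
    omega

theorem z0 (a : AC S c m u w) : lam c m (u + (u + w)) = 0 := by
  have gu := a.H.ap_gt a.hu
  have gw := a.H.ap_gt a.hw
  have hlt := a.H.ap_lt a.h
  have p1 := prim_ne a.H a.hwp a.hu a.huw
  have h1 := a.key {u + (u + w)} (fun x hx => by
    rw [mem_singleton] at hx; subst hx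
    exact ⟨a.h, by omega, by omega, by omega, by omega⟩)
  rw [sum_singleton] at h1
  have q1 := rule (c := c) (x := u) (y := u + w) a.H.hm0 hlt
  have q2 := rule (c := c) (x := w) (y := u + u) a.H.hm0 (by omega)
  rw [show w + (u + u) = u + (u + w) by ring] at q2
  have := a.hL
  omega

theorem ge1 (a : AC S c m u w) : lam c m 0 ≤ lam c m u + lam c m (u + w) + 1 := by
  have q1 := rule (c := c) (x := u) (y := u + w) a.H.hm0 (a.H.ap_lt a.h)
  have := a.z0
  omega

theorem ge2 (a : AC S c m u w) : lam c m 0 ≤ lam c m w + lam c m (u + u) + 1 := by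
  have hlt := a.H.ap_lt a.h
  have q2 := rule (c := c) (x := w) (y := u + u) a.H.hm0 (by omega)
  rw [show w + (u + u) = u + (u + w) by ring] at q2
  have := a.z0
  omega

theorem small (a : AC S c m u w) (Q : Finset ℕ) (hQ : ∀ x ∈ Q, Out S m u w x) :
    ∑ x ∈ Q, lam c m x ≤ 2 := by
  have h1 := a.key Q hQ
  have h2 := a.ge1
  have h3 := a.ge2
  have h4 := a.hL
  omega

theorem small2 (a : AC S c m u w) {x y : ℕ} (hx : Out S m u w x) (hy : Out S m u w y)
    (hne : x ≠ y) : lam c m x + lam c m y ≤ 2 := by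
  have h1 := a.small {x, y} (fun z hz => by
    simp only [mem_insert, mem_singleton] at hz
    rcases hz with rfl | rfl <;> assumption)
  rwa [sum_pair hne] at h1

theorem F3 (a : AC S c m u w) {x y : ℕ} (hx : Out S m u w x) (hy : m ≤ y)
    (hxy : Out S m u w (x + y)) (hpos : 0 < lam c m (x + y)) : False := by
  have hm0 := a.H.hm0
  have e1 := a.small2 hx hxy (by omega)
  have e2 := lam_lt (c := c) hm0 (a.H.ap_lt hxy.1) hy
  omega

theorem out_prim (a : AC S c m u w) {x : ℕ} (hx : Ap S m x) (hxp : Prim S x) (h1 : x ≠ u)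
    (h2 : x ≠ w) : Out S m u w x :=
  ⟨hx, h1, h2, prim_ne a.H hxp a.hu a.hu, prim_ne a.H hxp a.hu a.hw⟩

theorem RD (a : AC S c m u w) {y : ℕ} (hy : Ap S m y) (hyp : ¬ Prim S y) (h3 : y ≠ u + u)
    (h4 : y ≠ u + w) (hpos : 0 < lam c m y) : y = w + w ∨ y = u + (u + u) := by
  obtain ⟨x', y', hx', hxp', hy', he⟩ := dec a.H hy hyp
  have gx' := a.H.ap_gt hx'
  have gy' := a.H.ap_gt hy'
  have h1 : y ≠ u := by rintro rfl; exact hyp a.hup
  have h2 : y ≠ w := by rintro rfl; exact hyp a.hwp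
  have hyo : Out S m u w y := ⟨hy, h1, h2, h3, h4⟩
  have hx1 : x' = u ∨ x' = w := by
    by_contra hc
    push Not at hc
    exact a.F3 (a.out_prim hx' hxp' hc.1 hc.2) (le_of_lt gy') (by rw [he]; exact hyo)
      (by rw [he]; exact hpos)
  have hy1 : y' = u ∨ y' = w ∨ y' = u + u ∨ y' = u + w := by
    by_contra hc
    push Not at hc
    exact a.F3 (x := y') (y := x') ⟨hy', hc.1, hc.2.1, hc.2.2.1, hc.2.2.2⟩ (le_of_lt gx')
      (by rw [add_comm, he]; exact hyo) (by rw [add_comm, he]; exact hpos)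
  rcases hx1 with h | h
  · rcases hy1 with h' | h' | h' | h'
    · exact absurd (by omega) h3
    · exact absurd (by omega) h4
    · right; omega
    · exfalso
      rw [← he, h, h', a.z0] at hpos; omega
  · rcases hy1 with h' | h' | h' | h'
    · exact absurd (by omega) h4
    · left; omega
    · exfalso
      rw [← he, h, h', show w + (u + u) = u + (u + w) by ring, a.z0] at hpos; omega
    · exfalso
      have gu := a.H.ap_gt a.hu
      have gw := a.H.ap_gt a.hw
      have hww : Ap S m (w + w) := a.H.ap_part hy (S.add_mem a.hw.1 a.hw.1) a.hu.1 (by omega)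
        (by omega)
      have n1 := prim_ne a.H a.hup a.hw a.hw
      have hne := a.hne
      have e : w + w + u = y := by omega
      exact a.F3 (x := w + w) (y := u) ⟨hww, by omega, by omega, by omega, by omega⟩
        (le_of_lt gu) (by rw [e]; exact hyo) (by rw [e]; exact hpos)

theorem c_le_z0 (a : AC S c m u w) : c ≤ u + (u + w) := by
  by_contra hc
  have := lam_pos (c := c) (m := m) (x := u + (u + w)) a.H.hm0 (by omega)
  have := a.z0
  omega

end AC

end Pool.Agent.Helper82.Wilf
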