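import Pool.Agent.Helper82.Wilf.Alpha

set_option autoImplicit false

namespace Pool.Agent.Helper82.Wilf

open Finset Pool.Agent.Helper60.Wilf

variable {S : AddSubmonoid ℕ} {c m : ℕ}

namespace AC

variable {u w : ℕ}

theorem uX (a : AC S c m u w) : u ∈ XP S c m := by
  rw [mem_XP a.H]
  have := a.H.ap_lt a.h
  have := a.H.ap_gt a.hu
  have := a.H.ap_gt a.hw
  exact ⟨by omega, a.hu, a.hup⟩

theorem wX (a : AC S c m u w) : w ∈ XP S c m := by
  rw [mem_XP a.H]
  have := a.H.ap_lt a.h
  have := a.H.ap_gt a.hu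
  have := a.H.ap_gt a.hw
  exact ⟨by omega, a.hw, a.hwp⟩

/-- a further primitive element plus `u` is not below the conductor -/
theorem ru (a : AC S c m u w) {r : ℕ} (hr : Ap S m r) (hrp : Prim S r) (h1 : r ≠ u)
    (h2 : r ≠ w) (h : Ap S m (r + u)) (hlt : r + u < c) : False := by
  have H := a.H
  have gu := H.ap_gt a.hu
  have gr := H.ap_gt hr
  have n1 := prim_ne H a.hwp hr a.hu
  refine a.F3 (x := r) (y := u) (a.out_prim hr hrp h1 h2) (le_of_lt gu)
    ⟨h, by omega, fun e => n1 e.symm, by omega, by omega⟩ (lam_pos H.hm0 hlt)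

theorem rw' (a : AC S c m u w) {r : ℕ} (hr : Ap S m r) (hrp : Prim S r) (h1 : r ≠ u)
    (h2 : r ≠ w) (h : Ap S m (r + w)) (hlt : r + w < c) : r + w = u + u := by
  have H := a.H
  have gw := H.ap_gt a.hw
  have gr := H.ap_gt hr
  have n1 := prim_ne H a.hup hr a.hw
  by_contra hne
  exact a.F3 (x := r) (y := w) (a.out_prim hr hrp h1 h2) (le_of_lt gw)
    ⟨h, fun e => n1 e.symm, by omega, hne, by omega⟩ (lam_pos H.hm0 hlt)

theorem cover (a : AC S c m u w) {y : ℕ} (hy : y ∈ DD S c m) :
    y = u + u ∨ y = u + w ∨ y = w + w ∨ y = u + (u + w) ∨ y = u + (u + u) ∨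
    (Ap S m (w + w) ∧ 0 < lam c m (w + w) ∧ (y = u + (w + w) ∨ y = w + (w + w))) ∨
    (Ap S m (u + (u + u)) ∧ 0 < lam c m (u + (u + u)) ∧ y = u + (u + (u + u))) ∨
    (∃ r ∈ XP S c m \ {u, w}, y = u + r ∨ y = w + r ∨ (2 ≤ lam c m r ∧ y = r + r)) := by
  classical
  have H := a.H
  have hm0 := H.hm0
  obtain ⟨hyA, hyP⟩ := (mem_DD H).mp hy
  obtain ⟨x, y', hx, hxp, hy', he⟩ := dec H hyA hyP
  have gx := H.ap_gt hx
  have gy' := H.ap_gt hy'
  have gy := H.ap_lt hyA
  have gu := H.ap_gt a.hu
  have gw := H.ap_gt a.hw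
  have lx := lam_pos (c := c) hm0 (show x < c by omega)
  have ly' := lam_pos (c := c) hm0 (show y' < c by omega)
  have memR : ∀ r, Ap S m r → Prim S r → r < c → r ≠ u → r ≠ w → r ∈ XP S c m \ {u, w} := by
    intro r h1 h2 h3 h4 h5
    rw [mem_sdiff, mem_XP H, mem_insert, mem_singleton]
    exact ⟨⟨h3, h1, h2⟩, fun h => h.elim h4 h5⟩
  by_cases hyp : Prim S y'
  · by_cases x1 : x = u
    · by_cases y1 : y' = u
      · left; omega
      · by_cases y2 : y' = w
        · right; left; omega
        · iterate 7 right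
          exact ⟨y', memR y' hy' hyp (by omega) y1 y2, Or.inl (by omega)⟩
    · by_cases x2 : x = w
      · by_cases y1 : y' = u
        · right; left; omega
        · by_cases y2 : y' = w
          · right; right; left; omega
          · iterate 7 right
            exact ⟨y', memR y' hy' hyp (by omega) y1 y2, Or.inr (Or.inl (by omega))⟩
      · iterate 7 right
        by_cases y1 : y' = u
        · exact ⟨x, memR x hx hxp (by omega) x1 x2, Or.inl (by omega)⟩
        · by_cases y2 : y' = w
          · exact ⟨x, memR x hx hxp (by omega) x1 x2, Or.inr (Or.inl (by omega))⟩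
          · have r1 := rule (c := c) (x := x) (y := y') hm0 (by omega)
            have hq := a.hq
            by_cases hxy : x = y'
            · subst hxy
              refine ⟨x, memR x hx hxp (by omega) x1 x2, Or.inr (Or.inr ⟨?_, he.symm⟩)⟩
              omega
            · exfalso
              have := a.small2 (a.out_prim hx hxp x1 x2) (a.out_prim hy' hyp y1 y2) hxy
              omega
  · -- `y'` is decomposable
    have part : ∀ s t, Ap S m s → Ap S m t → s + t = y' → Ap S m (x + s) ∧ x + s < c := by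
      intro s t hs ht hst
      have gs := H.ap_gt hs
      have gt := H.ap_gt ht
      exact ⟨H.ap_part hyA (S.add_mem hx.1 hs.1) ht.1 (by omega) (by omega), by omega⟩
    have hcl : y' = u + u ∨ y' = u + w ∨ y' = w + w ∨ y' = u + (u + u) := by
      by_cases h1 : y' = u + u
      · exact Or.inl h1
      · by_cases h2 : y' = u + w
        · exact Or.inr (Or.inl h2)
        · exact Or.inr (Or.inr (a.RD hy' hyp h1 h2 ly'))
    have aw : ∀ {k : ℕ}, y' = k → Ap S m k := fun e => e ▸ hy'
    by_cases x1 : x = u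
    · rcases hcl with h | h | h | h
      · right; right; right; right; left; omega
      · right; right; right; left; omega
      · iterate 5 right
        left
        refine ⟨aw h, by rw [← h]; exact ly', Or.inl (by omega)⟩
      · iterate 6 right
        left
        refine ⟨aw h, by rw [← h]; exact ly', by omega⟩
    · by_cases x2 : x = w
      · rcases hcl with h | h | h | h
        · right; right; right; left; omega
        · iterate 5 right
          left
          obtain ⟨h1, h2⟩ := part w u a.hw a.hu (by omega)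
          rw [x2] at h1 h2
          exact ⟨h1, lam_pos hm0 h2, Or.inl (by omega)⟩
        · iterate 5 right
          left
          exact ⟨aw h, by rw [← h]; exact ly', Or.inr (by omega)⟩
        · exfalso
          obtain ⟨h1, h2⟩ := part (u + u) u a.huu a.hu (by omega)
          rw [x2] at h1 h2
          have h3 := lam_pos (c := c) hm0 h2
          rw [show w + (u + u) = u + (u + w) by ring, a.z0] at h3
          omega
      · rcases hcl with h | h | h | h
        · exfalso
          obtain ⟨h1, h2⟩ := part u u a.hu a.hu (by omega)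
          exact a.ru hx hxp x1 x2 h1 h2
        · exfalso
          obtain ⟨h1, h2⟩ := part u w a.hu a.hw (by omega)
          exact a.ru hx hxp x1 x2 h1 h2
        · obtain ⟨h1, h2⟩ := part w w a.hw a.hw (by omega)
          have h3 := a.rw' hx hxp x1 x2 h1 h2
          right; right; right; left; omega
        · exfalso
          obtain ⟨h1, h2⟩ := part u (u + u) a.hu a.huu (by omega)
          exact a.ru hx hxp x1 x2 h1 h2

/-- the numerical consequences of the covering -/
theorem counts (a : AC S c m u w) : ∃ s t b1 b2 C : ℕ,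
    (XP S c m).card = s + 2 ∧ t ≤ s ∧ b2 ≤ 1 ∧
    (DD S c m).card ≤ 5 + 2 * b1 + b2 + 2 * s + t ∧ s + t + b1 + b2 ≤ C ∧
    C + (lam c m u + lam c m w + lam c m (u + u) + lam c m (u + w)) ≤
      ∑ x ∈ A0 S c m, lam c m x := by
  classical
  have H := a.H
  have hm0 := H.hm0
  have gu := H.ap_gt a.hu
  have gw := H.ap_gt a.hw
  obtain ⟨R, hR⟩ : ∃ R, R = XP S c m \ {u, w} := ⟨_, rfl⟩
  obtain ⟨T, hT⟩ : ∃ T, T = R.filter (fun r => 2 ≤ lam c m r) := ⟨_, rfl⟩
  obtain ⟨E1, hE1⟩ : ∃ E1 : Finset ℕ, E1 = if Ap S m (w + w) ∧ 0 < lam c m (w + w) then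
    {u + (w + w), w + (w + w)} else ∅ := ⟨_, rfl⟩
  obtain ⟨Q1, hQ1⟩ : ∃ Q1 : Finset ℕ, Q1 = if Ap S m (w + w) ∧ 0 < lam c m (w + w) then
    {w + w} else ∅ := ⟨_, rfl⟩
  obtain ⟨E2, hE2⟩ : ∃ E2 : Finset ℕ, E2 = if Ap S m (u + (u + u)) ∧
    0 < lam c m (u + (u + u)) ∧ w + w ≠ u + (u + u) then {u + (u + (u + u))} else ∅ :=
      ⟨_, rfl⟩
  obtain ⟨Q2, hQ2⟩ : ∃ Q2 : Finset ℕ, Q2 = if Ap S m (u + (u + u)) ∧
    0 < lam c m (u + (u + u)) ∧ w + w ≠ u + (u + u) then {u + (u + u)} else ∅ := ⟨_, rfl⟩
  have hRX : ∀ r ∈ R, r < c ∧ Ap S m r ∧ Prim S r ∧ r ≠ u ∧ r ≠ w := by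
    intro r hr
    rw [hR, mem_sdiff, mem_XP H, mem_insert, mem_singleton] at hr
    push Not at hr
    exact ⟨hr.1.1, hr.1.2.1, hr.1.2.2, hr.2.1, hr.2.2⟩
  have hcover : DD S c m ⊆ (((({u + u, u + w, w + w, u + (u + w), u + (u + u)} : Finset ℕ) ∪ E1) ∪
      E2) ∪ (R.image (fun r => u + r) ∪ R.image (fun r => w + r))) ∪
        T.image (fun r => r + r) := by
    intro y hy
    simp only [mem_union, mem_insert, mem_singleton, mem_image]
    rcases a.cover hy with h | h | h | h | h | h | h | h
    · exact Or.inl (Or.inl (Or.inl (Or.inl (Or.inl h))))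
    · exact Or.inl (Or.inl (Or.inl (Or.inl (Or.inr (Or.inl h)))))
    · exact Or.inl (Or.inl (Or.inl (Or.inl (Or.inr (Or.inr (Or.inl h))))))
    · exact Or.inl (Or.inl (Or.inl (Or.inl (Or.inr (Or.inr (Or.inr (Or.inl h)))))))
    · exact Or.inl (Or.inl (Or.inl (Or.inl (Or.inr (Or.inr (Or.inr (Or.inr h)))))))
    · refine Or.inl (Or.inl (Or.inl (Or.inr ?_)))
      rw [hE1, if_pos ⟨h.1, h.2.1⟩, mem_insert, mem_singleton]
      exact h.2.2
    · by_cases hne : w + w = u + (u + u)
      · refine Or.inl (Or.inl (Or.inl (Or.inr ?_)))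
        rw [hE1, hne, if_pos ⟨h.1, h.2.1⟩, mem_insert, mem_singleton]
        left; exact h.2.2
      · refine Or.inl (Or.inl (Or.inr ?_))
        rw [hE2, if_pos ⟨h.1, h.2.1, hne⟩, mem_singleton]
        exact h.2.2
    · obtain ⟨r, hr, h⟩ := h
      rw [← hR] at hr
      rcases h with h | h | h
      · exact Or.inl (Or.inr (Or.inl ⟨r, hr, h.symm⟩))
      · exact Or.inl (Or.inr (Or.inr ⟨r, hr, h.symm⟩))
      · refine Or.inr ⟨r, ?_, h.2.symm⟩
        rw [hT, mem_filter]; exact ⟨hr, h.1⟩
  have c1 := card_le_card hcover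
  have k0 : ({u + u, u + w, w + w, u + (u + w), u + (u + u)} : Finset ℕ).card ≤ 5 :=
    card_le_five
  have k1 : E1.card ≤ 2 * Q1.card := by
    rw [hE1, hQ1]
    split_ifs
    · rw [card_singleton]; exact card_le_two
    · simp
  have k2 : E2.card = Q2.card := by
    rw [hE2, hQ2]
    split_ifs
    · rw [card_singleton, card_singleton]
    · rfl
  have k2' : Q2.card ≤ 1 := by
    rw [hQ2]
    split_ifs
    · rw [card_singleton]
    · simp
  have k3 : (R.image (fun r => u + r)).card ≤ R.card := card_image_le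
  have k4 : (R.image (fun r => w + r)).card ≤ R.card := card_image_le
  have k5 : (T.image (fun r => r + r)).card ≤ T.card := card_image_le
  have j1 := card_union_le ((((({u + u, u + w, w + w, u + (u + w), u + (u + u)} : Finset ℕ) ∪
      E1) ∪ E2) ∪ (R.image (fun r => u + r) ∪ R.image (fun r => w + r))))
        (T.image (fun r => r + r))
  have j2 := card_union_le (((({u + u, u + w, w + w, u + (u + w), u + (u + u)} : Finset ℕ) ∪
      E1) ∪ E2)) (R.image (fun r => u + r) ∪ R.image (fun r => w + r))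
  have j3 := card_union_le (({u + u, u + w, w + w, u + (u + w), u + (u + u)} : Finset ℕ) ∪
      E1) E2
  have j4 := card_union_le ({u + u, u + w, w + w, u + (u + w), u + (u + u)} : Finset ℕ) E1
  have j5 := card_union_le (R.image (fun r => u + r)) (R.image (fun r => w + r))
  have hTR : T.card ≤ R.card := by rw [hT]; exact card_filter_le _ _
  have hRc : (XP S c m).card = R.card + 2 := by
    have h1 : ({u, w} : Finset ℕ) ⊆ XP S c m := by
      intro z hz
      rw [mem_insert, mem_singleton] at hz
      rcases hz with rfl | rfl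
      · exact a.uX
      · exact a.wX
    have h2 := card_sdiff_add_card_eq_card h1
    rw [card_pair a.hne, ← hR] at h2
    omega
  -- the weights
  have n1 := prim_ne H a.hup a.hw a.hw
  have n2 := prim_ne H a.hwp a.hu a.huu
  have n3 := prim_ne H a.hwp a.hu a.hu
  have hne := a.hne
  have hQout : ∀ x ∈ R ∪ (Q1 ∪ Q2), Out S m u w x := by
    intro x hx
    rcases mem_union.mp hx with hx | hx
    · obtain ⟨-, h2, h3, h4, h5⟩ := hRX x hx
      exact a.out_prim h2 h3 h4 h5
    · rcases mem_union.mp hx with hx | hx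
      · rw [hQ1] at hx
        split_ifs at hx with h
        · rw [mem_singleton] at hx; subst hx
          exact ⟨h.1, by omega, by omega, by omega, by omega⟩
        · exact absurd hx (notMem_empty x)
      · rw [hQ2] at hx
        split_ifs at hx with h
        · rw [mem_singleton] at hx; subst hx
          exact ⟨h.1, by omega, by omega, by omega, by omega⟩
        · exact absurd hx (notMem_empty x)
  have hkey := a.key _ hQout
  have hd1 : Disjoint R (Q1 ∪ Q2) := by
    rw [disjoint_left]
    intro x hx hx'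
    obtain ⟨-, -, h3, -, -⟩ := hRX x hx
    rcases mem_union.mp hx' with hx' | hx'
    · rw [hQ1] at hx'
      split_ifs at hx' with h
      · rw [mem_singleton] at hx'
        exact prim_ne H h3 a.hw a.hw hx'
      · exact absurd hx' (notMem_empty x)
    · rw [hQ2] at hx'
      split_ifs at hx' with h
      · rw [mem_singleton] at hx'
        exact prim_ne H h3 a.hu a.huu hx'
      · exact absurd hx' (notMem_empty x)
  have hd2 : Disjoint Q1 Q2 := by
    rw [disjoint_left]
    intro x hx hx'
    rw [hQ1] at hx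
    rw [hQ2] at hx'
    split_ifs at hx with h
    · split_ifs at hx' with h'
      · rw [mem_singleton] at hx hx'
        exact h'.2.2 (by omega)
      · exact absurd hx' (notMem_empty x)
    · exact absurd hx (notMem_empty x)
  rw [sum_union hd1, sum_union hd2] at hkey
  have w1 : Q1.card ≤ ∑ x ∈ Q1, lam c m x := by
    rw [card_eq_sum_ones]
    apply sum_le_sum
    intro x hx
    rw [hQ1] at hx
    split_ifs at hx with h
    · rw [mem_singleton] at hx; subst hx; exact h.2
    · exact absurd hx (notMem_empty x)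
  have w2 : Q2.card ≤ ∑ x ∈ Q2, lam c m x := by
    rw [card_eq_sum_ones]
    apply sum_le_sum
    intro x hx
    rw [hQ2] at hx
    split_ifs at hx with h
    · rw [mem_singleton] at hx; subst hx; exact h.2.1
    · exact absurd hx (notMem_empty x)
  have w3 : R.card + T.card ≤ ∑ x ∈ R, lam c m x := by
    rw [hT, card_filter, card_eq_sum_ones, ← sum_add_distrib]
    apply sum_le_sum
    intro x hx
    have := lam_pos (c := c) hm0 (hRX x hx).1
    split_ifs <;> omega
  exact ⟨R.card, T.card, Q1.card, Q2.card, _, hRc, hTR, k2', by omega, by omega, hkey⟩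

end AC

theorem alpha {u w : ℕ} (a : AC S c m u w) {G : Finset ℕ} (hG : ∀ x, x ∈ G ↔ Prim S x)
    (hm3 : m ≤ 3 * G.card) : G.card * (elF S 0 c).card ≠ c := by
  classical
  intro hW
  have H := a.H
  have hm0 := H.hm0
  have gu := H.ap_gt a.hu
  have gw := H.ap_gt a.hw
  obtain ⟨s, t, b1, b2, C, hs, hts, hb2, hn, hC, hkey⟩ := a.counts
  have hcg := card_gens H hG
  have hsub := card_le_card (XP_sub_PA H)
  have hcA := card_A0 H
  have hcp := card_parts (S := S) (c := c) (m := m)
  have hcD := card_DD (S := S) (c := c) (m := m)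
  have hlt := H.ap_lt a.h
  have r1 := rule (c := c) (x := u) (y := u + w) hm0 hlt
  have r2 := rule (c := c) (x := w) (y := u + u) hm0 (by omega)
  rw [show w + (u + u) = u + (u + w) by ring] at r2
  have z0 := a.z0
  have g1 := a.ge1
  have g2 := a.ge2
  rw [z0] at r1 r2
  have v := (rr_spec (c := c) hm0 hlt).2
  have n3 := prim_ne H a.hwp a.hu a.hu
  have hne := a.hne
  have memI : ∀ x, Ap S m x → x ∈ insert 0 (A0 S c m) := fun x hx =>
    mem_insert_of_mem ((mem_A0 H).mpr hx)
  have d1 : rr c m u ≠ rr c m w := fun e =>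
    absurd (rr_inj H (memI _ a.hu) (memI _ a.hw) e) (by omega)
  have d2 : rr c m u ≠ rr c m (u + u) := fun e =>
    absurd (rr_inj H (memI _ a.hu) (memI _ a.huu) e) (by omega)
  have d3 : rr c m u ≠ rr c m (u + w) := fun e =>
    absurd (rr_inj H (memI _ a.hu) (memI _ a.huw) e) (by omega)
  have d4 : rr c m w ≠ rr c m (u + u) := fun e =>
    absurd (rr_inj H (memI _ a.hw) (memI _ a.huu) e) (by omega)
  have d5 : rr c m w ≠ rr c m (u + w) := fun e =>
    absurd (rr_inj H (memI _ a.hw) (memI _ a.huw) e) (by omega)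
  have d6 : rr c m (u + u) ≠ rr c m (u + w) := fun e =>
    absurd (rr_inj H (memI _ a.huu) (memI _ a.huw) e) (by omega)
  have hWn : G.card * (∑ x ∈ A0 S c m, lam c m x) + rr c m 0 =
      lam c m 0 * (DD S c m).card := by
    have h1 := wilf_eq H hG
    have h2 : (G.card : ℤ) * (elF S 0 c).card = c := by exact_mod_cast hW
    rw [h2] at h1
    rw [sum_A0, sum_PA H, sum_DD, hcD]
    have h3 : ((G.card * (∑ x ∈ XP S c m, lam c m x + (∑ x ∈ D2 S c m, lam c m x +
        ∑ x ∈ N3 S c m, lam c m x)) + rr c m 0 : ℕ) : ℤ) =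
          ((lam c m 0 * ((D2 S c m).card + (N3 S c m).card) : ℕ) : ℤ) := by
      push_cast
      linarith
    exact_mod_cast h3
  have hq := a.hq
  have hL := a.hL
  refine arith_alpha G.card (lam c m 0) (DD S c m).card (∑ x ∈ A0 S c m, lam c m x) (rr c m 0)
    (lam c m u + lam c m (u + w)) (lam c m w + lam c m (u + u)) C s b1 b2 t hq (by omega) hL
    (by omega) (by omega) hC hn (by omega) (by omega) hts hb2 ?_ ?_ hWn
  · rintro (h | h)
    · clear hWn hW r2 hkey; omega
    · clear hWn hW r1 hkey; omega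
  · intro h h'
    clear hWn hW hkey
    have k1 : rr c m u + rr c m (u + w) + 1 ≤ rr c m 0 := by clear r2; omega
    have k2 : rr c m w + rr c m (u + u) + 1 ≤ rr c m 0 := by clear r1; omega
    clear r1 r2
    omega

end Pool.Agent.Helper82.Wilf
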