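import Pool.Agent.Helper60.Wilf.Cases

set_option autoImplicit false

namespace Pool.Agent.Helper82.Wilf

open Finset Pool.Agent.Helper60.Wilf

/-- `lam c m x` is the number of elements `x, x + m, x + 2 m, …` below `c` (for `x < c + m`). -/
def lam (c m x : ℕ) : ℕ := (c + m - 1 - x) / m

/-- `rr c m x` is the residue in `[0, m)` with `x + lam x * m = c + rr x`. -/
def rr (c m x : ℕ) : ℕ := x + lam c m x * m - c

variable {c m : ℕ}

theorem lam_spec {x : ℕ} (hm : 0 < m) (hx : x < c + m) :
    c ≤ x + lam c m x * m ∧ x + lam c m x * m < c + m := by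
  unfold lam
  have h1 := Nat.div_mul_le_self (c + m - 1 - x) m
  have h2 := Nat.lt_div_mul_add (a := c + m - 1 - x) hm
  omega

theorem rr_spec {x : ℕ} (hm : 0 < m) (hx : x < c + m) :
    x + lam c m x * m = c + rr c m x ∧ rr c m x < m := by
  have := lam_spec hm hx
  unfold rr
  omega

theorem lam_unique {x k : ℕ} (hm : 0 < m) (hx : x < c + m) (h1 : c ≤ x + k * m)
    (h2 : x + k * m < c + m) : lam c m x = k := by
  have h := lam_spec hm hx
  rcases lt_trichotomy (lam c m x) k with h3 | h3 | h3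
  · have := Nat.mul_le_mul_right m (show lam c m x + 1 ≤ k from h3)
    rw [Nat.add_mul] at this; omega
  · exact h3
  · have := Nat.mul_le_mul_right m (show k + 1 ≤ lam c m x from h3)
    rw [Nat.add_mul] at this; omega

theorem lam_eq_zero {x : ℕ} (hm : 0 < m) (hx : x < c + m) (h : c ≤ x) : lam c m x = 0 :=
  lam_unique hm hx (by omega) (by omega)

theorem lam_pos {x : ℕ} (hm : 0 < m) (hx : x < c) : 0 < lam c m x := by
  rcases Nat.eq_zero_or_pos (lam c m x) with h | h
  · have := (lam_spec (c := c) hm (by omega : x < c + m)).1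
    rw [h] at this; omega
  · exact h

theorem lt_of_lam_pos {x : ℕ} (hm : 0 < m) (hx : x < c + m) (h : 0 < lam c m x) : x < c := by
  by_contra hc
  rw [lam_eq_zero hm hx (by omega)] at h
  exact lt_irrefl _ h

/-- the basic relation between `x`, `y` and `x + y` -/
theorem rel {x y : ℕ} (hm : 0 < m) (h : x + y < c + m) :
    (lam c m x + lam c m y) * m + rr c m (x + y) + rr c m 0 =
      (lam c m (x + y) + lam c m 0) * m + (rr c m x + rr c m y) := by
  have h1 := (rr_spec (c := c) hm (show x < c + m by omega)).1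
  have h2 := (rr_spec (c := c) hm (show y < c + m by omega)).1
  have h3 := (rr_spec (c := c) hm h).1
  have h4 := (rr_spec (c := c) hm (show 0 < c + m by omega)).1
  rw [Nat.add_mul, Nat.add_mul]
  omega

theorem rule {x y : ℕ} (hm : 0 < m) (h : x + y < c + m) :
    (lam c m x + lam c m y + 1 = lam c m (x + y) + lam c m 0 ∧
        rr c m (x + y) + rr c m 0 = m + (rr c m x + rr c m y)) ∨
    (lam c m x + lam c m y = lam c m (x + y) + lam c m 0 ∧
        rr c m (x + y) + rr c m 0 = rr c m x + rr c m y) ∨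
    (lam c m x + lam c m y = lam c m (x + y) + lam c m 0 + 1 ∧
        rr c m (x + y) + rr c m 0 + m = rr c m x + rr c m y) := by
  have h0 := rel (c := c) hm h
  have h1 := (rr_spec (c := c) hm (show x < c + m by omega)).2
  have h2 := (rr_spec (c := c) hm (show y < c + m by omega)).2
  have h3 := (rr_spec (c := c) hm h).2
  have h4 := (rr_spec (c := c) hm (show 0 < c + m by omega)).2
  generalize rr c m x = a at *
  generalize rr c m y = b at *
  generalize rr c m (x + y) = d at *
  generalize rr c m 0 = e at *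
  generalize lam c m x + lam c m y = U at *
  generalize lam c m (x + y) + lam c m 0 = V at *
  rcases Nat.lt_or_ge (U + 1) V with h5 | h5
  · have := Nat.mul_le_mul_right m (show U + 2 ≤ V from h5)
    rw [Nat.add_mul] at this; omega
  rcases Nat.lt_or_ge (V + 1) U with h6 | h6
  · have := Nat.mul_le_mul_right m (show V + 2 ≤ U from h6)
    rw [Nat.add_mul] at this; omega
  have h7 : U + 1 = V ∨ U = V ∨ U = V + 1 := by omega
  rcases h7 with h7 | h7 | h7
  · left
    refine ⟨h7, ?_⟩
    subst h7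
    rw [Nat.add_mul] at h0; omega
  · right; left
    refine ⟨h7, ?_⟩
    subst h7; omega
  · right; right
    refine ⟨h7, ?_⟩
    subst h7
    rw [Nat.add_mul] at h0; omega

/-- strict monotonicity: adding at least `m` lowers `lam` by at least one -/
theorem lam_lt {x y : ℕ} (hm : 0 < m) (h : x + y < c + m) (hy : m ≤ y) :
    lam c m (x + y) + 1 ≤ lam c m x := by
  have h1 := lam_spec (c := c) hm (show x < c + m by omega)
  have h3 := lam_spec (c := c) hm h
  by_contra hc
  have := Nat.mul_le_mul_right m (show lam c m x ≤ lam c m (x + y) by omega)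
  omega

variable {S : AddSubmonoid ℕ}

/-- the nonzero Apery set -/
noncomputable def A0 (S : AddSubmonoid ℕ) (c m : ℕ) : Finset ℕ := apF S m 0 (c + m)

theorem mem_A0 (H : Sg S c m) {s : ℕ} : s ∈ A0 S c m ↔ Ap S m s := by
  unfold A0
  rw [mem_apF]
  exact ⟨fun h => h.2, fun h => ⟨⟨Nat.zero_le _, H.ap_lt h⟩, h⟩⟩

theorem zero_notMem_A0 (H : Sg S c m) : 0 ∉ A0 S c m := by
  rw [mem_A0 H]
  intro h
  have := H.ap_gt h
  omega

/-- elements of the full Apery set -/
theorem mem_ins (H : Sg S c m) {s : ℕ} (hs : s ∈ insert 0 (A0 S c m)) :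
    s ∈ S ∧ s < c + m ∧ ∀ k t : ℕ, t ∈ S → s = t + k * m → k = 0 := by
  have hm0 := H.hm0
  rw [mem_insert, mem_A0 H] at hs
  rcases hs with rfl | hs
  · refine ⟨S.zero_mem, by omega, fun k t _ h => ?_⟩
    rcases Nat.eq_zero_or_pos k with h1 | h1
    · exact h1
    · have := Nat.mul_le_mul_right m (show 1 ≤ k from h1)
      omega
  · refine ⟨hs.1, H.ap_lt hs, fun k t ht h => ?_⟩
    rcases Nat.eq_zero_or_pos k with h1 | h1
    · exact h1
    · exfalso
      apply hs.2
      obtain ⟨j, rfl⟩ : ∃ j, k = j + 1 := ⟨k - 1, by omega⟩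
      rw [Nat.add_mul] at h
      have : s - m = t + j * m := by omega
      rw [this]
      exact S.add_mem ht (by rw [← smul_eq_mul]; exact S.nsmul_mem H.hm j)

theorem ins_inj (H : Sg S c m) {x y j k : ℕ} (hx : x ∈ insert 0 (A0 S c m))
    (hy : y ∈ insert 0 (A0 S c m)) (h : x + j * m = y + k * m) : x = y ∧ j = k := by
  have hx' := mem_ins H hx
  have hy' := mem_ins H hy
  have hm0 := H.hm0
  rcases Nat.le_total j k with h1 | h1
  · obtain ⟨d, rfl⟩ := Nat.exists_eq_add_of_le h1
    rw [Nat.add_mul] at h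
    have h2 : x = y + d * m := by omega
    have h3 := hx'.2.2 d y hy'.1 h2
    subst h3
    constructor <;> omega
  · obtain ⟨d, rfl⟩ := Nat.exists_eq_add_of_le h1
    rw [Nat.add_mul] at h
    have h2 : y = x + d * m := by omega
    have h3 := hy'.2.2 d x hx'.1 h2
    subst h3
    constructor <;> omega

theorem ins_surj (H : Sg S c m) (n : ℕ) (hn : n ∈ S) :
    ∃ x ∈ insert 0 (A0 S c m), ∃ k, n = x + k * m := by
  induction n using Nat.strong_induction_on with
  | _ n ih =>
    by_cases h0 : n = 0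
    · exact ⟨0, mem_insert_self _ _, 0, by omega⟩
    by_cases h : n - m ∈ S
    · have hm0 := H.hm0
      have hge := H.hmin n hn h0
      obtain ⟨x, hx, k, hk⟩ := ih (n - m) (by omega) h
      refine ⟨x, hx, k + 1, ?_⟩
      rw [Nat.add_mul]; omega
    · exact ⟨n, mem_insert_of_mem ((mem_A0 H).mpr ⟨hn, h⟩), 0, by omega⟩

/-- residues are distinct -/
theorem rr_inj (H : Sg S c m) {x y : ℕ} (hx : x ∈ insert 0 (A0 S c m))
    (hy : y ∈ insert 0 (A0 S c m)) (h : rr c m x = rr c m y) : x = y := by
  have h1 := (rr_spec (c := c) H.hm0 (mem_ins H hx).2.1).1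
  have h2 := (rr_spec (c := c) H.hm0 (mem_ins H hy).2.1).1
  exact (ins_inj H hx hy (by omega : x + lam c m x * m = y + lam c m y * m)).1

theorem card_ins (H : Sg S c m) : (insert 0 (A0 S c m)).card = m := by
  have : (insert 0 (A0 S c m)).card = (Ico c (c + m)).card := by
    apply card_bij (fun x _ => x + lam c m x * m)
    · intro x hx
      rw [mem_Ico]
      exact lam_spec H.hm0 (mem_ins H hx).2.1
    · intro x hx y hy h
      exact (ins_inj H hx hy h).1
    · intro n hn
      rw [mem_Ico] at hn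
      obtain ⟨x, hx, k, hk⟩ := ins_surj H n (H.hc n hn.1)
      refine ⟨x, hx, ?_⟩
      rw [lam_unique H.hm0 (mem_ins H hx).2.1 (by omega) (by omega : x + k * m < c + m)]
      exact hk.symm
  rw [this, Nat.card_Ico]; omega

theorem card_A0 (H : Sg S c m) : (A0 S c m).card + 1 = m := by
  rw [← card_insert_of_notMem (zero_notMem_A0 H)]
  exact card_ins H

/-- counting the left elements -/
theorem card_left (H : Sg S c m) :
    (elF S 0 c).card = lam c m 0 + ∑ x ∈ A0 S c m, lam c m x := by
  classical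
  have hm0 := H.hm0
  rw [← sum_insert (zero_notMem_A0 H)]
  have h1 : ∑ x ∈ insert 0 (A0 S c m), lam c m x =
      ((insert 0 (A0 S c m)).sigma (fun x => range (lam c m x))).card := by
    rw [card_sigma]
    exact sum_congr rfl (fun x _ => (card_range _).symm)
  rw [h1]
  symm
  apply card_bij (fun (p : (_ : ℕ) × ℕ) _ => p.1 + p.2 * m)
  · rintro ⟨x, k⟩ hp
    rw [mem_sigma, mem_range] at hp
    obtain ⟨hx, hk⟩ := hp
    dsimp only at hx hk
    have hx' := mem_ins H hx
    have h2 := lam_spec (c := c) hm0 hx'.2.1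
    have h3 := Nat.mul_le_mul_right m (show k + 1 ≤ lam c m x from hk)
    rw [Nat.add_mul] at h3
    rw [mem_elF]
    refine ⟨⟨Nat.zero_le _, by dsimp only; omega⟩, ?_⟩
    exact S.add_mem hx'.1 (by rw [← smul_eq_mul]; exact S.nsmul_mem H.hm k)
  · rintro ⟨x, j⟩ hp ⟨y, k⟩ hq h
    rw [mem_sigma] at hp hq
    obtain ⟨h2, h3⟩ := ins_inj H hp.1 hq.1 h
    dsimp only at h2 h3
    subst h2; subst h3; rfl
  · intro n hn
    rw [mem_elF] at hn
    obtain ⟨x, hx, k, hk⟩ := ins_surj H n hn.2
    refine ⟨⟨x, k⟩, ?_, hk.symm⟩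
    rw [mem_sigma, mem_range]
    refine ⟨hx, ?_⟩
    dsimp only
    by_contra hc
    have h2 := lam_spec (c := c) hm0 (mem_ins H hx).2.1
    have h3 := Nat.mul_le_mul_right m (show lam c m x ≤ k by omega)
    omega

/-- number of Apery elements whose residue is at least `m - ρ` -/
theorem card_hi (H : Sg S c m) {Z : Finset ℕ} (hZ : Z ⊆ insert 0 (A0 S c m))
    (h : ∀ z ∈ Z, m ≤ rr c m z + rr c m 0) : Z.card ≤ rr c m 0 := by
  classical
  have h4 := (rr_spec (c := c) H.hm0 (show 0 < c + m by have := H.hm0; omega)).2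
  have h1 : (Z.image (rr c m)).card = Z.card :=
    card_image_of_injOn (fun x hx y hy hxy => rr_inj H (hZ hx) (hZ hy) hxy)
  rw [← h1]
  have h2 : Z.image (rr c m) ⊆ Ico (m - rr c m 0) m := by
    intro r hr
    obtain ⟨z, hz, rfl⟩ := mem_image.mp hr
    have h3 := (rr_spec (c := c) H.hm0 (mem_ins H (hZ hz)).2.1).2
    have h5 := h z hz
    rw [mem_Ico]; omega
  have h3 := card_le_card h2
  rw [Nat.card_Ico] at h3
  omega

end Pool.Agent.Helper82.Wilf
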