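import Pool.Agent.Helper82.Wilf.OrderTwo
import Pool.Agent.Helper82.Wilf.Alpha

set_option autoImplicit false

namespace Pool.Agent.Helper82.Wilf

open Finset Pool.Agent.Helper60.Wilf

variable {S : AddSubmonoid ℕ} {c m : ℕ}

/-- the sign of the defects in the rules with one fixed summand -/
theorem rule_s (H : Sg S c m) {x y z : ℕ} (hx : Ap S m x) (hxy : x + y = z) (hz : z < c + m) :
    (rr c m x < rr c m 0 ∧ (lam c m x + lam c m y + 1 = lam c m z + lam c m 0 ∨
        lam c m x + lam c m y = lam c m z + lam c m 0)) ∨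
    (rr c m 0 < rr c m x ∧ (lam c m x + lam c m y = lam c m z + lam c m 0 ∨
        lam c m x + lam c m y = lam c m z + lam c m 0 + 1)) := by
  subst hxy
  have hm0 := H.hm0
  have gx := H.ap_gt hx
  have hne : rr c m x ≠ rr c m 0 := by
    intro h
    have := rr_inj H (mem_insert_of_mem ((mem_A0 H).mpr hx)) (mem_insert_self 0 _) h
    omega
  have h2 := (rr_spec (c := c) hm0 (show y < c + m by omega)).2
  have h3 := (rr_spec (c := c) hm0 hz).2
  rcases rule (c := c) hm0 hz with h | h | h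
  · left; exact ⟨by omega, Or.inl h.1⟩
  · rcases Nat.lt_or_gt_of_ne hne with h4 | h4
    · left; exact ⟨h4, Or.inr h.1⟩
    · right; exact ⟨h4, Or.inl h.1⟩
  · right; exact ⟨by omega, Or.inr h.1⟩

theorem rule_w (H : Sg S c m) {x y z : ℕ} (hxy : x + y = z) (hz : z < c + m) :
    lam c m x + lam c m y + 1 = lam c m z + lam c m 0 ∨
      lam c m x + lam c m y = lam c m z + lam c m 0 ∨
      lam c m x + lam c m y = lam c m z + lam c m 0 + 1 := by
  subst hxy
  rcases rule (c := c) H.hm0 hz with h | h | h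
  · exact Or.inl h.1
  · exact Or.inr (Or.inl h.1)
  · exact Or.inr (Or.inr h.1)

theorem rule_m (H : Sg S c m) {x : ℕ} (hx : Ap S m x) (hlt : rr c m x < rr c m 0) {y z : ℕ}
    (hxy : x + y = z) (hz : z < c + m) :
    lam c m x + lam c m y + 1 = lam c m z + lam c m 0 ∨
      lam c m x + lam c m y = lam c m z + lam c m 0 := by
  rcases rule_s H hx hxy hz with h | h
  · exact h.2
  · exact absurd h.1 (by omega)

theorem rule_p (H : Sg S c m) {x : ℕ} (hx : Ap S m x) (hlt : rr c m 0 < rr c m x) {y z : ℕ}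
    (hxy : x + y = z) (hz : z < c + m) :
    lam c m x + lam c m y = lam c m z + lam c m 0 ∨
      lam c m x + lam c m y = lam c m z + lam c m 0 + 1 := by
  rcases rule_s H hx hxy hz with h | h
  · exact absurd h.1 (by omega)
  · exact h.2

theorem rr_ne (H : Sg S c m) {x : ℕ} (hx : Ap S m x) :
    rr c m x < rr c m 0 ∨ rr c m 0 < rr c m x := by
  rcases rule_s H hx (y := 0) rfl (H.ap_lt hx) with h | h
  · exact Or.inl h.1
  · exact Or.inr h.1

theorem mul_ap (H : Sg S c m) {h : ℕ} (hh : Ap S m h) {i j : ℕ} (hi : 1 ≤ i) (hij : i ≤ j)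
    (hj : Ap S m (j * h)) : Ap S m (i * h) := by
  have g := H.ap_gt hh
  rcases Nat.eq_or_lt_of_le hij with e | e
  · rw [e]; exact hj
  · obtain ⟨d, rfl⟩ := Nat.exists_eq_add_of_lt e
    have h1 : i * h + (d + 1) * h = (i + d + 1) * h := by ring
    have h2 : i * h ∈ S := by rw [← smul_eq_mul]; exact S.nsmul_mem hh.1 _
    have h3 : (d + 1) * h ∈ S := by rw [← smul_eq_mul]; exact S.nsmul_mem hh.1 _
    refine H.ap_part hj h2 h3 h1 ?_
    have : 0 < i * h := Nat.mul_pos (by omega) (by omega)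
    omega

theorem ar3 (q a b d p : ℕ) (hq : 4 ≤ q) (hp : 3 ≤ p) (h2 : b + 1 ≤ a) (h3 : d + 1 ≤ b)
    (hs : ((a + a + 1 = b + q ∨ a + a = b + q) ∧ (a + b + 1 = d + q ∨ a + b = d + q)) ∨
      ((a + a = b + q ∨ a + a = b + q + 1) ∧ (a + b = d + q ∨ a + b = d + q + 1))) :
    q ≤ (p + 1) * b + p * d + (if a + b + 1 = d + q then 1 else 0) +
      (if a + a = b + q + 1 then 1 else 0) ∧
    ((p + 1) * b + p * d + (if a + b + 1 = d + q then 1 else 0) +
      (if a + a = b + q + 1 then 1 else 0) ≤ q → p = 3 ∧ q = 5 ∧ a = 3 ∧ b = 1 ∧ d = 0) := by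
  obtain ⟨t, rfl⟩ : ∃ t, p = 3 + t := ⟨p - 3, by omega⟩
  have e1 : (3 + t + 1) * b = 4 * b + t * b := by ring
  have e2 : (3 + t) * d = 3 * d + t * d := by ring
  have e3 : t ≤ t * b := Nat.le_mul_of_pos_right t (by omega)
  rw [e1, e2]
  generalize t * b = u at *
  generalize t * d = v at *
  split_ifs <;> omega

theorem ar4 (q a b d e p : ℕ) (hq : 4 ≤ q) (hp : 3 ≤ p) (h2 : b + 1 ≤ a) (h3 : d + 1 ≤ b)
    (h4 : e + 1 ≤ d)
    (hs : ((a + a + 1 = b + q ∨ a + a = b + q) ∧ (a + b + 1 = d + q ∨ a + b = d + q) ∧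
        (a + d + 1 = e + q ∨ a + d = e + q)) ∨
      ((a + a = b + q ∨ a + a = b + q + 1) ∧ (a + b = d + q ∨ a + b = d + q + 1) ∧
        (a + d = e + q ∨ a + d = e + q + 1)))
    (hbb : b + b + 1 = e + q ∨ b + b = e + q ∨ b + b = e + q + 1) :
    q * 2 < (p + 1) * b + p * (d + e) + (if a + b + 1 = d + q then 1 else 0) +
      (if a + a = b + q + 1 then 1 else 0) := by
  obtain ⟨t, rfl⟩ : ∃ t, p = 3 + t := ⟨p - 3, by omega⟩
  have e1 : (3 + t + 1) * b = 4 * b + t * b := by ring
  have e2 : (3 + t) * (d + e) = 3 * (d + e) + t * (d + e) := by ring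
  rw [e1, e2]
  generalize t * b = u at *
  generalize t * (d + e) = v at *
  split_ifs <;> omega

theorem ar5 (q a b d e f p : ℕ) (hq : 4 ≤ q) (hp : 3 ≤ p) (h2 : b + 1 ≤ a) (h3 : d + 1 ≤ b)
    (h4 : e + 1 ≤ d) (h5 : f + 1 ≤ e)
    (hs : ((a + a + 1 = b + q ∨ a + a = b + q) ∧ (a + b + 1 = d + q ∨ a + b = d + q) ∧
        (a + d + 1 = e + q ∨ a + d = e + q) ∧ (a + e + 1 = f + q ∨ a + e = f + q)) ∨
      ((a + a = b + q ∨ a + a = b + q + 1) ∧ (a + b = d + q ∨ a + b = d + q + 1) ∧
        (a + d = e + q ∨ a + d = e + q + 1) ∧ (a + e = f + q ∨ a + e = f + q + 1)))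
    (hbb : b + b + 1 = e + q ∨ b + b = e + q ∨ b + b = e + q + 1)
    (hbd : b + d + 1 = f + q ∨ b + d = f + q ∨ b + d = f + q + 1) :
    q * 3 < (p + 1) * b + p * (d + e + f) + (if a + b + 1 = d + q then 1 else 0) +
      (if a + a = b + q + 1 then 1 else 0) := by
  obtain ⟨t, rfl⟩ : ∃ t, p = 3 + t := ⟨p - 3, by omega⟩
  have e1 : (3 + t + 1) * b = 4 * b + t * b := by ring
  have e2 : (3 + t) * (d + e + f) = 3 * (d + e + f) + t * (d + e + f) := by ring
  rw [e1, e2]
  generalize t * b = u at *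
  generalize t * (d + e + f) = v at *
  split_ifs <;> omega

/-- the context of the case without `2 u + w` -/
structure BC (S : AddSubmonoid ℕ) (c m : ℕ) : Prop where
  H : Sg S c m
  hq : 4 ≤ lam c m 0
  hL : ∑ x ∈ A0 S c m, lam c m x ≤ 2 * lam c m 0
  hno : ∀ u w, Ap S m u → Prim S u → Ap S m w → Prim S w → u ≠ w → ¬ Ap S m (u + (u + w))

namespace BC

theorem mult (a : BC S c m) (z : ℕ) (hz : z ∈ N3 S c m) :
    ∃ h ∈ XP S c m, ∃ j, 3 ≤ j ∧ z = j * h := by
  have H := a.H
  induction z using Nat.strong_induction_on with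
  | _ z ih =>
    obtain ⟨hzD, hzT⟩ := mem_N3.mp hz
    rw [mem_DD H] at hzD
    obtain ⟨hzA, hzP⟩ := hzD
    obtain ⟨x, y, hx, hxp, hy, hxy⟩ := dec H hzA hzP
    have gx := H.ap_gt hx
    have gy := H.ap_gt hy
    have gz := H.ap_lt hzA
    have hxX : x ∈ XP S c m := (mem_XP H).mpr ⟨by omega, hx, hxp⟩
    by_cases hyp : Prim S y
    · exact absurd ⟨x, hxX, y, (mem_XP H).mpr ⟨by omega, hy, hyp⟩, hxy⟩ hzT
    have hyD : y ∈ DD S c m := (mem_DD H).mpr ⟨hy, hyp⟩
    by_cases hyT : Two S c m y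
    · obtain ⟨u, hu, v, hv, huv⟩ := hyT
      rw [mem_XP H] at hu hv
      by_cases h1 : x = u
      · subst h1
        by_cases h2 : x = v
        · subst h2
          exact ⟨x, hxX, 3, le_rfl, by omega⟩
        · exfalso
          apply a.hno x v hx hxp hv.2.1 hv.2.2 h2
          rw [huv, hxy]; exact hzA
      · by_cases h2 : x = v
        · subst h2
          exfalso
          apply a.hno x u hx hxp hu.2.1 hu.2.2 h1
          rw [show x + u = y by omega, hxy]; exact hzA
        · by_cases h3 : u = v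
          · subst h3
            exfalso
            apply a.hno u x hu.2.1 hu.2.2 hx hxp (Ne.symm h1)
            rw [show u + (u + x) = z by omega]; exact hzA
          · exfalso
            apply no_sqf H a.hq a.hL hx hxp hu.2.1 hu.2.2 hv.2.1 hv.2.2 h1 h2 h3
            rw [show x + u + v = z by omega]; exact hzA
    · have hyN : y ∈ N3 S c m := mem_N3.mpr ⟨hyD, hyT⟩
      obtain ⟨h, hh, j, hj, hyj⟩ := ih y (by omega) hyN
      have hh' := (mem_XP H).mp hh
      have gh := H.ap_gt hh'.2.1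
      by_cases h1 : x = h
      · subst h1
        exact ⟨x, hxX, j + 1, by omega, by rw [← hxy, hyj]; ring⟩
      · exfalso
        apply a.hno h x hh'.2.1 hh'.2.2 hx hxp (Ne.symm h1)
        obtain ⟨i, rfl⟩ : ∃ i, j = i + 2 := ⟨j - 2, by omega⟩
        refine H.ap_part hzA (S.add_mem hh'.2.1.1 (S.add_mem hh'.2.1.1 hx.1))
          (b := i * h) ?_ ?_ (by omega)
        · rw [← smul_eq_mul]; exact S.nsmul_mem hh'.2.1.1 _
        · rw [← hxy, hyj]; ring

theorem inner (a : BC S c m) {h : ℕ} (hh : h ∈ XP S c m) {j : ℕ} (hj : Ap S m ((j + 1) * h))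
    {u v : ℕ} (hu : u ∈ XP S c m) (hv : v ∈ XP S c m) (huv : u + v = j * h) :
    u = h ∧ v = h := by
  have H := a.H
  rw [mem_XP H] at hh hu hv
  have e : (j + 1) * h = j * h + h := by ring
  by_cases h1 : u = h
  · by_cases h2 : v = h
    · exact ⟨h1, h2⟩
    · exfalso
      apply a.hno h v hh.2.1 hh.2.2 hv.2.1 hv.2.2 (Ne.symm h2)
      rw [show h + (h + v) = (j + 1) * h by omega]; exact hj
  · by_cases h2 : v = h
    · exfalso
      apply a.hno h u hh.2.1 hh.2.2 hu.2.1 hu.2.2 (Ne.symm h1)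
      rw [show h + (h + u) = (j + 1) * h by omega]; exact hj
    · exfalso
      by_cases h3 : u = v
      · apply a.hno u h hu.2.1 hu.2.2 hh.2.1 hh.2.2 h1
        rw [show u + (u + h) = (j + 1) * h by omega]; exact hj
      · apply no_sqf H a.hq a.hL hh.2.1 hh.2.2 hu.2.1 hu.2.2 hv.2.1 hv.2.2 (Ne.symm h1)
          (Ne.symm h2) h3
        rw [show h + u + v = (j + 1) * h by omega]; exact hj

theorem inner2 (a : BC S c m) {h : ℕ} (hh : h ∈ XP S c m) {j : ℕ} (hj : Ap S m ((j + 1) * h))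
    {g i : ℕ} (hg : g ∈ XP S c m) (hi : 2 ≤ i) (he : j * h = i * g) : g = h := by
  have H := a.H
  rw [mem_XP H] at hh hg
  by_contra hne
  apply a.hno g h hg.2.1 hg.2.2 hh.2.1 hh.2.2 hne
  have gg := H.ap_gt hg.2.1
  obtain ⟨k, rfl⟩ : ∃ k, i = k + 2 := ⟨i - 2, by omega⟩
  refine H.ap_part hj (S.add_mem hg.2.1.1 (S.add_mem hg.2.1.1 hh.2.1.1)) (b := k * g) ?_ ?_
    (by omega)
  · rw [← smul_eq_mul]; exact S.nsmul_mem hg.2.1.1 _
  · have e : (j + 1) * h = j * h + h := by ring
    rw [e, he]; ring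

theorem small (a : BC S c m) {h : ℕ} (hh : h ∈ XP S c m) : ¬ Ap S m (6 * h) := by
  intro h6
  have H := a.H
  have hm0 := H.hm0
  rw [mem_XP H] at hh
  have gh := H.ap_gt hh.2.1
  have hlt := H.ap_lt h6
  have a2 := mul_ap H hh.2.1 (i := 2) (by norm_num) (by norm_num) h6
  have a3 := mul_ap H hh.2.1 (i := 3) (by norm_num) (by norm_num) h6
  have a4 := mul_ap H hh.2.1 (i := 4) (by norm_num) (by norm_num) h6
  have a5 := mul_ap H hh.2.1 (i := 5) (by norm_num) (by norm_num) h6
  have hs := list_le H [h, 2 * h, 3 * h, 4 * h, 5 * h, 6 * h] (by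
    simp only [List.nodup_cons, List.mem_cons, List.not_mem_nil, or_false, not_or,
      not_false_eq_true, List.nodup_nil, and_true]
    omega) (by
    intro x hx
    simp only [List.mem_cons, List.not_mem_nil, or_false] at hx
    rcases hx with rfl | rfl | rfl | rfl | rfl | rfl
    · exact hh.2.1
    all_goals assumption)
  simp only [List.map_cons, List.map_nil, List.sum_cons, List.sum_nil] at hs
  have r1 := rule (c := c) (x := h) (y := 5 * h) hm0 (by omega)
  have r2 := rule (c := c) (x := 2 * h) (y := 4 * h) hm0 (by omega)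
  have r3 := rule (c := c) (x := 3 * h) (y := 3 * h) hm0 (by omega)
  rw [show h + 5 * h = 6 * h by ring] at r1
  rw [show 2 * h + 4 * h = 6 * h by ring] at r2
  rw [show 3 * h + 3 * h = 6 * h by ring] at r3
  have l1 := lam_lt (c := c) (x := h) (y := h) hm0 (by omega) (by omega)
  have l2 := lam_lt (c := c) (x := 2 * h) (y := h) hm0 (by omega) (by omega)
  have l3 := lam_lt (c := c) (x := 3 * h) (y := h) hm0 (by omega) (by omega)
  have l4 := lam_lt (c := c) (x := 4 * h) (y := h) hm0 (by omega) (by omega)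
  have l5 := lam_lt (c := c) (x := 5 * h) (y := h) hm0 (by omega) (by omega)
  rw [show h + h = 2 * h by ring] at l1
  rw [show 2 * h + h = 3 * h by ring] at l2
  rw [show 3 * h + h = 4 * h by ring] at l3
  rw [show 4 * h + h = 5 * h by ring] at l4
  rw [show 5 * h + h = 6 * h by ring] at l5
  have := a.hL
  have := a.hq
  omega

theorem fibre (a : BC S c m) {p : ℕ} (hp : 3 ≤ p) {h : ℕ} (hh : h ∈ XP S c m) (F : Finset ℕ)
    (hFne : F.Nonempty) (hF1 : ∀ z ∈ F, Ap S m z ∧ ∃ j, 3 ≤ j ∧ z = j * h)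
    (hF2 : ∀ j, 3 ≤ j → Ap S m ((j + 1) * h) → j * h ∈ F) :
    3 * h ∈ F ∧
    lam c m 0 * F.card ≤ (p + 1) * lam c m (h + h) + p * ∑ z ∈ F, lam c m z +
      (if lam c m h + lam c m (h + h) + 1 = lam c m (3 * h) + lam c m 0 then 1 else 0) +
      (if lam c m h + lam c m h = lam c m (h + h) + lam c m 0 + 1 then 1 else 0) ∧
    ((p + 1) * lam c m (h + h) + p * ∑ z ∈ F, lam c m z +
      (if lam c m h + lam c m (h + h) + 1 = lam c m (3 * h) + lam c m 0 then 1 else 0) +
      (if lam c m h + lam c m h = lam c m (h + h) + lam c m 0 + 1 then 1 else 0) ≤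
        lam c m 0 * F.card →
      p = 3 ∧ lam c m 0 = 5 ∧ F = {3 * h} ∧ lam c m h = 3 ∧ lam c m (h + h) = 1 ∧
        lam c m (3 * h) = 0) := by
  classical
  have H := a.H
  have hm0 := H.hm0
  have hq := a.hq
  have hh' := (mem_XP H).mp hh
  have gh := H.ap_gt hh'.2.1
  have e2 : h + h = 2 * h := by ring
  have e3 : h + 2 * h = 3 * h := by ring
  have e4 : h + 3 * h = 4 * h := by ring
  have e5 : h + 4 * h = 5 * h := by ring
  have e22 : 2 * h + 2 * h = 4 * h := by ring
  have e23 : 2 * h + 3 * h = 5 * h := by ring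
  have d3 : 2 * h + h = 3 * h := by ring
  have d4 : 3 * h + h = 4 * h := by ring
  have d5 : 4 * h + h = 5 * h := by ring
  rw [e2]
  have hmul : ∀ {j : ℕ}, j * h ∈ F → Ap S m (j * h) := fun hj => (hF1 _ hj).1
  have h3F : 3 * h ∈ F := by
    obtain ⟨z, hz⟩ := hFne
    obtain ⟨hzA, j, hj, rfl⟩ := hF1 z hz
    rcases Nat.eq_or_lt_of_le hj with e | e
    · rw [e]; exact hz
    · exact hF2 3 le_rfl (mul_ap H hh'.2.1 (by norm_num) (show 3 + 1 ≤ j from e) hzA)
  have a3 := hmul h3F
  have a2 := mul_ap H hh'.2.1 (i := 2) (by norm_num) (by norm_num) a3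
  have g3 := H.ap_lt a3
  have l1 := lam_lt (c := c) (x := h) (y := h) hm0 (by omega) (by omega)
  have l2 := lam_lt (c := c) (x := 2 * h) (y := h) hm0 (by omega) (by omega)
  rw [e2] at l1
  rw [d3] at l2
  have g2 : 2 * h < c + m := by omega
  refine ⟨h3F, ?_⟩
  by_cases h4F : 4 * h ∈ F
  · have a4 := hmul h4F
    have g4 := H.ap_lt a4
    have l3 := lam_lt (c := c) (x := 3 * h) (y := h) hm0 (by omega) (by omega)
    rw [d4] at l3
    have r4 := rule_w H e22 g4
    by_cases h5F : 5 * h ∈ F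
    · have a5 := hmul h5F
      have g5 := H.ap_lt a5
      have l4 := lam_lt (c := c) (x := 4 * h) (y := h) hm0 (by omega) (by omega)
      rw [d5] at l4
      have r5 := rule_w H e23 g5
      have hFe : F = {3 * h, 4 * h, 5 * h} := by
        ext z
        simp only [mem_insert, mem_singleton]
        constructor
        · intro hz
          obtain ⟨hzA, j, hj, rfl⟩ := hF1 z hz
          rcases Nat.lt_or_ge j 6 with h6 | h6
          · interval_cases j <;> simp
          · exact absurd (mul_ap H hh'.2.1 (i := 6) (by norm_num) h6 hzA) (a.small hh)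
        · rintro (rfl | rfl | rfl) <;> assumption
      have hc3 : F.card = 3 := by
        rw [hFe, card_insert_of_notMem, card_insert_of_notMem, card_singleton]
        · rw [mem_singleton]; omega
        · simp only [mem_insert, mem_singleton]; omega
      have hsum : ∑ z ∈ F, lam c m z = lam c m (3 * h) + lam c m (4 * h) + lam c m (5 * h) := by
        rw [hFe, sum_insert, sum_insert, sum_singleton]
        · ring
        · rw [mem_singleton]; omega
        · simp only [mem_insert, mem_singleton]; omega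
      rw [hc3, hsum]
      have key := ar5 (lam c m 0) (lam c m h) (lam c m (2 * h)) (lam c m (3 * h))
        (lam c m (4 * h)) (lam c m (5 * h)) p hq hp l1 l2 l3 l4
        ((rr_ne H hh'.2.1).imp
          (fun hl => ⟨rule_m H hh'.2.1 hl e2 g2, rule_m H hh'.2.1 hl e3 g3,
            rule_m H hh'.2.1 hl e4 g4, rule_m H hh'.2.1 hl e5 g5⟩)
          (fun hl => ⟨rule_p H hh'.2.1 hl e2 g2, rule_p H hh'.2.1 hl e3 g3,
            rule_p H hh'.2.1 hl e4 g4, rule_p H hh'.2.1 hl e5 g5⟩)) r4 r5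
      exact ⟨le_of_lt key, fun hle => absurd key (not_lt.mpr hle)⟩
    · have hFe : F = {3 * h, 4 * h} := by
        ext z
        simp only [mem_insert, mem_singleton]
        constructor
        · intro hz
          obtain ⟨hzA, j, hj, rfl⟩ := hF1 z hz
          rcases Nat.lt_or_ge j 6 with h6 | h6
          · interval_cases j
            · simp
            · simp
            · exact absurd hz h5F
          · exact absurd (mul_ap H hh'.2.1 (i := 6) (by norm_num) h6 hzA) (a.small hh)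
        · rintro (rfl | rfl) <;> assumption
      have hc3 : F.card = 2 := by
        rw [hFe, card_insert_of_notMem, card_singleton]
        rw [mem_singleton]; omega
      have hsum : ∑ z ∈ F, lam c m z = lam c m (3 * h) + lam c m (4 * h) := by
        rw [hFe, sum_insert, sum_singleton]
        rw [mem_singleton]; omega
      rw [hc3, hsum]
      have key := ar4 (lam c m 0) (lam c m h) (lam c m (2 * h)) (lam c m (3 * h))
        (lam c m (4 * h)) p hq hp l1 l2 l3
        ((rr_ne H hh'.2.1).imp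
          (fun hl => ⟨rule_m H hh'.2.1 hl e2 g2, rule_m H hh'.2.1 hl e3 g3,
            rule_m H hh'.2.1 hl e4 g4⟩)
          (fun hl => ⟨rule_p H hh'.2.1 hl e2 g2, rule_p H hh'.2.1 hl e3 g3,
            rule_p H hh'.2.1 hl e4 g4⟩)) r4
      exact ⟨le_of_lt key, fun hle => absurd key (not_lt.mpr hle)⟩
  · have hFe : F = {3 * h} := by
      ext z
      simp only [mem_singleton]
      constructor
      · intro hz
        obtain ⟨hzA, j, hj, rfl⟩ := hF1 z hz
        rcases Nat.lt_or_ge j 5 with h6 | h6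
        · interval_cases j
          · rfl
          · exact absurd hz h4F
        · exact absurd (hF2 4 (by norm_num) (mul_ap H hh'.2.1 (by norm_num)
            (show 4 + 1 ≤ j from h6) hzA)) h4F
      · rintro rfl; exact h3F
    have hsum : ∑ z ∈ F, lam c m z = lam c m (3 * h) := by
      rw [hFe, sum_singleton]
    have hc3 : F.card = 1 := by rw [hFe, card_singleton]
    rw [hc3, hsum, mul_one]
    obtain ⟨k1, k2⟩ := ar3 (lam c m 0) (lam c m h) (lam c m (2 * h)) (lam c m (3 * h)) p hq hp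
      l1 l2 ((rr_ne H hh'.2.1).imp
          (fun hl => ⟨rule_m H hh'.2.1 hl e2 g2, rule_m H hh'.2.1 hl e3 g3⟩)
          (fun hl => ⟨rule_p H hh'.2.1 hl e2 g2, rule_p H hh'.2.1 hl e3 g3⟩))
    refine ⟨k1, fun hle => ?_⟩
    obtain ⟨t1, t2, t3, t4, t5⟩ := k2 hle
    exact ⟨t1, t2, hFe, t3, t4, t5⟩

theorem diag (a : BC S c m) {h : ℕ} (hh : h ∈ XP S c m) (h3 : Ap S m (3 * h)) :
    (h, h) ∈ CP S c m := by
  have H := a.H
  have hh' := (mem_XP H).mp hh
  have gh := H.ap_gt hh'.2.1
  have a2 := mul_ap H hh'.2.1 (i := 2) (by norm_num) (by norm_num) h3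
  unfold CP
  rw [mem_can]
  refine ⟨⟨hh, hh, le_rfl⟩, ?_, ?_⟩
  · show h + h ∈ D2 S c m
    rw [mem_D2, mem_DD H]
    refine ⟨⟨?_, ?_⟩, h, hh, h, hh, rfl⟩
    · rw [← two_mul]; exact a2
    · intro hp
      exact prim_ne H hp hh'.2.1 hh'.2.1 rfl
  · intro u hu v hv huv
    have huv' : u + v = 2 * h := by
      have : u + v = h + h := huv
      omega
    exact (a.inner hh (j := 2) h3 hu hv huv').1.symm.le

/-- the equality case of the estimate -/
theorem main_ineq (a : BC S c m) {G : Finset ℕ} (hG : ∀ a, a ∈ G ↔ Prim S a) (hp : 3 ≤ G.card)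
    (hW : G.card * (elF S 0 c).card = c) :
    ∃ Y : Finset ℕ, Y ⊆ XP S c m ∧
      (∀ h ∈ Y, G.card = 3 ∧ lam c m 0 = 5 ∧ lam c m h = 3 ∧ lam c m (h + h) = 1 ∧
        lam c m (3 * h) = 0 ∧ 3 * h ∈ N3 S c m) ∧
      (∀ h ∈ Y, (h, h) ∈ CP S c m) ∧
      N3 S c m = Y.image (fun h => 3 * h) ∧
      G.card * ∑ x ∈ XP S c m, lam c m x ≤ ((XP S c m).card + 1) * ∑ x ∈ XP S c m, lam c m x ∧
      ((XP S c m).card + 1) * ∑ x ∈ XP S c m, lam c m x ≤
        ∑ p ∈ CP S c m, (lam c m p.1 + lam c m p.2) ∧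
      (Ep S c m).card = 0 ∧
      ∑ z ∈ D2 S c m, lam c m z ≤ ∑ h ∈ Y, lam c m (h + h) ∧
      G.card * (∑ x ∈ XP S c m, lam c m x + ∑ x ∈ D2 S c m, lam c m x +
        ∑ x ∈ N3 S c m, lam c m x) + rr c m 0 =
          lam c m 0 * ((D2 S c m).card + (N3 S c m).card) := by
  classical
  have H := a.H
  have hm0 := H.hm0
  choose! hf hf1 using a.mult
  obtain ⟨Y, hY⟩ : ∃ Y, Y = (N3 S c m).image hf := ⟨_, rfl⟩
  obtain ⟨F, hF⟩ : ∃ F : ℕ → Finset ℕ, F = fun h => (N3 S c m).filter (fun z => hf z = h) :=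
    ⟨_, rfl⟩
  have memF : ∀ h z, z ∈ F h ↔ z ∈ N3 S c m ∧ hf z = h := by
    intro h z
    rw [hF]; exact mem_filter
  have hYX : Y ⊆ XP S c m := by
    intro h hh
    rw [hY] at hh
    obtain ⟨z, hz, rfl⟩ := mem_image.mp hh
    exact (hf1 z hz).1
  have hinner : ∀ h ∈ XP S c m, ∀ j, 3 ≤ j → Ap S m ((j + 1) * h) → j * h ∈ F h := by
    intro h hh j hj hA
    have hh' := (mem_XP H).mp hh
    have gh := H.ap_gt hh'.2.1
    have hjA := mul_ap H hh'.2.1 (i := j) (by omega) (Nat.le_succ j) hA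
    have hjN : j * h ∈ N3 S c m := by
      rw [mem_N3, mem_DD H]
      refine ⟨⟨hjA, ?_⟩, ?_⟩
      · intro hP
        obtain ⟨i, rfl⟩ : ∃ i, j = i + 1 := ⟨j - 1, by omega⟩
        have h1 := mul_ap H hh'.2.1 (i := i) (by omega) (Nat.le_succ i) hjA
        exact prim_ne H hP hh'.2.1 h1 (by ring)
      · rintro ⟨u, hu, v, hv, huv⟩
        obtain ⟨h1, h2⟩ := a.inner hh hA hu hv huv
        rw [h1, h2] at huv
        have : 3 * h ≤ j * h := Nat.mul_le_mul_right h hj
        omega
    rw [memF]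
    refine ⟨hjN, ?_⟩
    obtain ⟨h1, i, h2, h3⟩ := hf1 _ hjN
    exact a.inner2 hh hA h1 (by omega) h3
  have hfib : ∀ h ∈ Y, _ := fun h hh => a.fibre hp (hYX hh) (F h)
    (by
      rw [hY] at hh
      obtain ⟨z, hz, he⟩ := mem_image.mp hh
      exact ⟨z, (memF h z).mpr ⟨hz, he⟩⟩)
    (by
      intro z hz
      obtain ⟨h1, h2⟩ := (memF h z).mp hz
      refine ⟨((mem_DD H).mp (mem_N3.mp h1).1).1, ?_⟩
      obtain ⟨-, j, h3, h4⟩ := hf1 z h1
      rw [h2] at h4
      exact ⟨j, h3, h4⟩)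
    (hinner h (hYX hh))
  have h3N : ∀ h ∈ Y, 3 * h ∈ N3 S c m := fun h hh => ((memF h _).mp (hfib h hh).1).1
  have h3A : ∀ h ∈ Y, Ap S m (3 * h) := fun h hh =>
    ((mem_DD H).mp (mem_N3.mp (h3N h hh)).1).1
  have hdiag : ∀ h ∈ Y, (h, h) ∈ CP S c m := fun h hh => a.diag (hYX hh) (h3A h hh)
  -- sums over the fibres
  have s1 : (N3 S c m).card = ∑ h ∈ Y, (F h).card := by
    rw [hF, hY]
    exact card_eq_sum_card_fiberwise (fun z hz => mem_image_of_mem hf hz)
  have s2 : ∑ h ∈ Y, ∑ z ∈ F h, lam c m z = ∑ z ∈ N3 S c m, lam c m z := by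
    rw [hF, hY]
    exact sum_fiberwise_of_maps_to (fun z hz => mem_image_of_mem hf hz) _
  -- defect minus one
  obtain ⟨Y3, hY3⟩ : ∃ Y3, Y3 = Y.filter
      (fun h => lam c m h + lam c m (h + h) + 1 = lam c m (3 * h) + lam c m 0) := ⟨_, rfl⟩
  obtain ⟨Y2, hY2⟩ : ∃ Y2, Y2 = Y.filter
      (fun h => lam c m h + lam c m h = lam c m (h + h) + lam c m 0 + 1) := ⟨_, rfl⟩
  have c3 : (Em S c m).card + Y3.card ≤ rr c m 0 := by
    have h1 : (Y3.image (fun h => 3 * h)).card = Y3.card :=
      card_image_of_injective _ (fun x y hxy => by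
        have : 3 * x = 3 * y := hxy
        omega)
    rw [← h1]
    apply Em_le H
    · intro z hz
      obtain ⟨h, hh, rfl⟩ := mem_image.mp hz
      rw [hY3, mem_filter] at hh
      exact h3N h hh.1
    · intro z hz
      obtain ⟨h, hh, rfl⟩ := mem_image.mp hz
      rw [hY3, mem_filter] at hh
      have h2 := H.ap_lt (h3A h hh.1)
      have h4 := rule (c := c) (x := h) (y := h + h) hm0 (by omega)
      rw [show h + (h + h) = 3 * h by ring] at h4
      have h5 := hh.2
      show m ≤ rr c m (3 * h) + rr c m 0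
      omega
  have c4 : Y2.card ≤ (Ep S c m).card := by
    have h1 : (Y2.image (fun h => (h, h))).card = Y2.card :=
      card_image_of_injective _ (fun x y hxy => (Prod.ext_iff.mp hxy).1)
    rw [← h1]
    apply card_le_card
    intro q hq
    obtain ⟨h, hh, rfl⟩ := mem_image.mp hq
    rw [hY2, mem_filter] at hh
    unfold Ep
    rw [mem_filter]
    exact ⟨hdiag h hh.1, hh.2⟩
  have c5 : ∑ h ∈ Y, lam c m (h + h) ≤ ∑ z ∈ D2 S c m, lam c m z := by
    have h1 : ∑ z ∈ Y.image (fun h => h + h), lam c m z = ∑ h ∈ Y, lam c m (h + h) := by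
      rw [sum_image]
      intro x _ y _ hxy
      have : x + x = y + y := hxy
      omega
    rw [← h1]
    apply sum_le_sum_of_subset
    intro z hz
    obtain ⟨h, hh, rfl⟩ := mem_image.mp hz
    exact (CP_lt H (hdiag h hh)).2.2.2.1
  have hle := CP_sum_le H
  have hI := ident H
  have hg := card_gens H hG
  have hsub := card_le_card (XP_sub_PA H)
  have hmul : ((XP S c m).card + 1) * ∑ x ∈ XP S c m, lam c m x ≤
      G.card * ∑ x ∈ XP S c m, lam c m x := Nat.mul_le_mul_right _ (by omega)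
  have hW0 : G.card * (∑ x ∈ XP S c m, lam c m x + ∑ x ∈ D2 S c m, lam c m x +
        ∑ x ∈ N3 S c m, lam c m x) + rr c m 0 =
          lam c m 0 * ((D2 S c m).card + (N3 S c m).card) := by
    have h1 := wilf_eq H hG
    have h2 : (G.card : ℤ) * (elF S 0 c).card = c := by exact_mod_cast hW
    rw [h2] at h1
    have h3 : ((G.card * (∑ x ∈ XP S c m, lam c m x + ∑ x ∈ D2 S c m, lam c m x +
        ∑ x ∈ N3 S c m, lam c m x) + rr c m 0 : ℕ) : ℤ) =
          ((lam c m 0 * ((D2 S c m).card + (N3 S c m).card) : ℕ) : ℤ) := by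
      push_cast
      linarith
    exact_mod_cast h3
  have c6 : ∀ h ∈ Y, lam c m 0 * (F h).card ≤ (G.card + 1) * lam c m (h + h) +
      G.card * ∑ z ∈ F h, lam c m z +
      (if lam c m h + lam c m (h + h) + 1 = lam c m (3 * h) + lam c m 0 then 1 else 0) +
      (if lam c m h + lam c m h = lam c m (h + h) + lam c m 0 + 1 then 1 else 0) :=
    fun h hh => (hfib h hh).2.1
  have c7 := sum_le_sum c6
  have e7 : ∑ h ∈ Y, lam c m 0 * (F h).card = lam c m 0 * (N3 S c m).card := by
    rw [s1, mul_sum]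
  have e8 : ∑ h ∈ Y, ((G.card + 1) * lam c m (h + h) +
      G.card * ∑ z ∈ F h, lam c m z +
      (if lam c m h + lam c m (h + h) + 1 = lam c m (3 * h) + lam c m 0 then 1 else 0) +
      (if lam c m h + lam c m h = lam c m (h + h) + lam c m 0 + 1 then 1 else 0)) =
      (G.card + 1) * ∑ h ∈ Y, lam c m (h + h) + G.card * ∑ z ∈ N3 S c m, lam c m z +
        Y3.card + Y2.card := by
    rw [sum_add_distrib, sum_add_distrib, sum_add_distrib, ← mul_sum, ← mul_sum, s2, hY3, hY2,
      card_filter, card_filter]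
  have c8 := c7
  rw [e7, e8] at c8
  have c9 : (G.card + 1) * ∑ h ∈ Y, lam c m (h + h) ≤
      (G.card + 1) * ∑ z ∈ D2 S c m, lam c m z := Nat.mul_le_mul_left _ c5
  have x1 : (G.card + 1) * ∑ z ∈ D2 S c m, lam c m z =
      G.card * ∑ z ∈ D2 S c m, lam c m z + ∑ z ∈ D2 S c m, lam c m z := by ring
  have hW1 := hW0
  rw [Nat.mul_add, Nat.mul_add, Nat.mul_add] at hW1
  have c10 : (G.card + 1) * ∑ h ∈ Y, lam c m (h + h) =
      (G.card + 1) * ∑ z ∈ D2 S c m, lam c m z := by omega
  have c11 : ∑ z ∈ D2 S c m, lam c m z ≤ ∑ h ∈ Y, lam c m (h + h) := by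
    have := Nat.eq_of_mul_eq_mul_left (by omega) c10
    omega
  have c12 : ∑ h ∈ Y, lam c m 0 * (F h).card = ∑ h ∈ Y, ((G.card + 1) * lam c m (h + h) +
      G.card * ∑ z ∈ F h, lam c m z +
      (if lam c m h + lam c m (h + h) + 1 = lam c m (3 * h) + lam c m 0 then 1 else 0) +
      (if lam c m h + lam c m h = lam c m (h + h) + lam c m 0 + 1 then 1 else 0)) := by
    rw [e7, e8]
    omega
  have c13 := (sum_eq_sum_iff_of_le c6).mp c12
  have hsp : ∀ h ∈ Y, G.card = 3 ∧ lam c m 0 = 5 ∧ F h = {3 * h} ∧ lam c m h = 3 ∧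
      lam c m (h + h) = 1 ∧ lam c m (3 * h) = 0 := fun h hh =>
    (hfib h hh).2.2 (c13 h hh).symm.le
  refine ⟨Y, hYX, ?_, hdiag, ?_, by omega, by omega, ?_, c11, hW0⟩
  · intro h hh
    obtain ⟨t1, t2, -, t4, t5, t6⟩ := hsp h hh
    exact ⟨t1, t2, t4, t5, t6, h3N h hh⟩
  · ext z
    rw [mem_image]
    constructor
    · intro hz
      have hh : hf z ∈ Y := by rw [hY]; exact mem_image_of_mem hf hz
      have h1 : z ∈ F (hf z) := (memF _ _).mpr ⟨hz, rfl⟩
      rw [(hsp _ hh).2.2.1, mem_singleton] at h1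
      exact ⟨hf z, hh, h1.symm⟩
    · rintro ⟨h, hh, rfl⟩
      exact h3N h hh
  · have h1 : Y2 = ∅ := by
      rw [hY2, filter_eq_empty_iff]
      intro h hh h2
      obtain ⟨t1, t2, -, t4, t5, t6⟩ := hsp h hh
      rw [t2, t4, t5] at h2
      omega
    rw [h1, card_empty] at c8
    omega

end BC

theorem beta (H : Sg S c m) {G : Finset ℕ} (hG : ∀ a, a ∈ G ↔ Prim S a) (hp : 3 ≤ G.card)
    (hq : 4 ≤ lam c m 0) (hL : ∑ x ∈ A0 S c m, lam c m x ≤ 2 * lam c m 0)
    (hno : ∀ u w, Ap S m u → Prim S u → Ap S m w → Prim S w → u ≠ w → ¬ Ap S m (u + (u + w)))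
    (hN : N3 S c m ≠ ∅) : G.card * (elF S 0 c).card ≠ c := by
  classical
  intro hW
  have hm0 := H.hm0
  obtain ⟨Y, hYX, hY, hdiag, hNY, hP1, hP2, hEp, hD, hW0⟩ :=
    BC.main_ineq ⟨H, hq, hL, hno⟩ hG hp hW
  have hYne : Y.Nonempty := by
    by_contra hc
    rw [not_nonempty_iff_eq_empty] at hc
    rw [hc, image_empty] at hNY
    exact hN hNY
  obtain ⟨h, hh⟩ := hYne
  obtain ⟨t1, t2, t3, t4, t5, t6⟩ := hY h hh
  have hhX := hYX hh
  have hhA := ((mem_XP H).mp hhX).2.1
  have gh := H.ap_gt hhA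
  have hlt := ((mem_XP H).mp hhX).1
  have hPpos : 0 < ∑ x ∈ XP S c m, lam c m x :=
    sum_pos (fun x hx => lam_pos H.hm0 ((mem_XP H).mp hx).1) ⟨h, hhX⟩
  have hX2 : (XP S c m).card = 2 := by
    have h1 := Nat.le_of_mul_le_mul_right hP1 hPpos
    have h2 := card_gens H hG
    have h3 := card_le_card (XP_sub_PA H)
    omega
  have hall := CP_all H hP2
  obtain ⟨g, hgX, hgh, hXe⟩ : ∃ g ∈ XP S c m, g ≠ h ∧ XP S c m = {h, g} := by
    obtain ⟨x, y, hxy, he⟩ := card_eq_two.mp hX2
    rw [he, mem_insert, mem_singleton] at hhX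
    rcases hhX with rfl | rfl
    · exact ⟨y, by rw [he]; simp, Ne.symm hxy, he⟩
    · exact ⟨x, by rw [he]; simp, hxy, by rw [he, pair_comm]⟩
  have hgA := ((mem_XP H).mp hgX).2.1
  have gg := H.ap_gt hgA
  have hglt := ((mem_XP H).mp hgX).1
  have hEpe : Ep S c m = ∅ := card_eq_zero.mp hEp
  have hnE : ∀ p ∈ CP S c m, lam c m p.1 + lam c m p.2 ≠
      lam c m (p.1 + p.2) + lam c m 0 + 1 := by
    intro p hp he
    have : p ∈ Ep S c m := by
      unfold Ep; rw [mem_filter]; exact ⟨hp, he⟩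
    rw [hEpe] at this
    exact absurd this (notMem_empty p)
  have hggC : (g, g) ∈ CP S c m := by rw [hall, mem_pairs]; exact ⟨hgX, hgX, le_rfl⟩
  have hhgD : h + g ∈ D2 S c m ∧ lam c m h + lam c m g ≠ lam c m (h + g) + lam c m 0 + 1 := by
    rcases le_total h g with hl | hl
    · have h1 : (h, g) ∈ CP S c m := by rw [hall, mem_pairs]; exact ⟨hhX, hgX, hl⟩
      exact ⟨(CP_lt H h1).2.2.2.1, hnE _ h1⟩
    · have h1 : (g, h) ∈ CP S c m := by rw [hall, mem_pairs]; exact ⟨hgX, hhX, hl⟩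
      have h2 := hnE _ h1
      have h3 : lam c m g + lam c m h ≠ lam c m (g + h) + lam c m 0 + 1 := h2
      rw [add_comm g h] at h3
      refine ⟨?_, by omega⟩
      rw [add_comm]
      exact (CP_lt H h1).2.2.2.1
  have hggD : g + g ∈ D2 S c m := (CP_lt H hggC).2.2.2.1
  have hhhD : h + h ∈ D2 S c m := (CP_lt H (hdiag h hh)).2.2.2.1
  have b1 : h + g < c + m := H.ap_lt ((mem_DD H).mp (mem_D2.mp hhgD.1).1).1
  have b2 : g + g < c + m := H.ap_lt ((mem_DD H).mp (mem_D2.mp hggD).1).1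
  have b3 : h + h < c + m := H.ap_lt ((mem_DD H).mp (mem_D2.mp hhhD).1).1
  have b4 : 3 * h < c + m := H.ap_lt ((mem_DD H).mp (mem_N3.mp t6).1).1
  have hgg1 : lam c m g + lam c m g ≠ lam c m (g + g) + lam c m 0 + 1 := hnE _ hggC
  have hD3 : lam c m (h + h) + lam c m (h + g) + lam c m (g + g) ≤
      ∑ z ∈ D2 S c m, lam c m z := by
    have h1 : ∑ z ∈ ({h + h, h + g, g + g} : Finset ℕ), lam c m z =
        lam c m (h + h) + lam c m (h + g) + lam c m (g + g) := by
      rw [sum_insert, sum_insert, sum_singleton]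
      · ring
      · rw [mem_singleton]; omega
      · simp only [mem_insert, mem_singleton]; omega
    rw [← h1]
    apply sum_le_sum_of_subset
    intro z hz
    simp only [mem_insert, mem_singleton] at hz
    rcases hz with rfl | rfl | rfl
    · exact hhhD
    · exact hhgD.1
    · exact hggD
  have r1 := rule (c := c) (x := h) (y := g) hm0 b1
  by_cases hgY : g ∈ Y
  · obtain ⟨-, -, u3, u4, -, -⟩ := hY g hgY
    have hYe : Y = {h, g} := by
      apply Subset.antisymm
      · rw [← hXe]; exact hYX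
      · intro z hz
        rw [mem_insert, mem_singleton] at hz
        rcases hz with rfl | rfl <;> assumption
    rw [hYe, sum_pair (Ne.symm hgh)] at hD
    have := hhgD.2
    omega
  · have hYe : Y = {h} := by
      apply Subset.antisymm
      · intro z hz
        have h1 := hYX hz
        rw [hXe, mem_insert, mem_singleton] at h1
        rw [mem_singleton]
        rcases h1 with h1 | h1
        · exact h1
        · rw [h1] at hz; exact absurd hz hgY
      · intro z hz
        rw [mem_singleton] at hz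
        rw [hz]; exact hh
    have hNe : N3 S c m = {3 * h} := by rw [hNY, hYe, image_singleton]
    have hNc : (N3 S c m).card = 1 := by rw [hNe, card_singleton]
    have hNs : ∑ z ∈ N3 S c m, lam c m z = 0 := by rw [hNe, sum_singleton, t5]
    have hPs : ∑ x ∈ XP S c m, lam c m x = lam c m h + lam c m g := by
      rw [hXe, sum_pair (Ne.symm hgh)]
    have hDc : (D2 S c m).card = 3 := by
      have h1 := two_mul_card_pairs (XP S c m)
      rw [← hall, CP_card, hX2] at h1
      omega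
    rw [hYe, sum_singleton] at hD
    have hms : m = 7 := by
      have h3 := card_A0 H
      have h4 := card_parts (S := S) (c := c) (m := m)
      have h5 := card_DD (S := S) (c := c) (m := m)
      have h6 := card_gens H hG
      omega
    have hDs : ∑ z ∈ D2 S c m, lam c m z = 1 := by omega
    rw [hDs, hNs, hPs, hNc, hDc, t1, t2, t3] at hW0
    have r2 := rule (c := c) (x := g) (y := g) hm0 b2
    have r3 := rule (c := c) (x := h) (y := h) hm0 b3
    have r4 := rule (c := c) (x := h) (y := h + h) hm0 (by omega)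
    rw [show h + (h + h) = 3 * h by ring] at r4
    have v1 := (rr_spec (c := c) hm0 (show h < c + m by omega)).2
    have v2 := (rr_spec (c := c) hm0 (show g < c + m by omega)).2
    have v3 := (rr_spec (c := c) hm0 b3).2
    have v4 := (rr_spec (c := c) hm0 b4).2
    have v5 := (rr_spec (c := c) hm0 b1).2
    have v6 := (rr_spec (c := c) hm0 b2).2
    rw [t3, t2] at r1
    rw [t2] at r2 hgg1
    rw [t2, t3, t4] at r3
    rw [t2, t3, t4, t5] at r4
    rw [t2] at t2
    generalize lam c m g = lg at *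
    generalize lam c m (h + g) = lhg at *
    generalize lam c m (g + g) = lgg at *
    generalize rr c m h = ah at *
    generalize rr c m g = ag at *
    generalize rr c m (h + h) = ahh at *
    generalize rr c m (h + g) = ahg at *
    generalize rr c m (g + g) = agg at *
    generalize rr c m (3 * h) = ahhh at *
    generalize rr c m 0 = ρ at *
    rw [hDs, t4] at hD3
    clear hW hP1 hP2 hnE hall hXe hL
    have q1 : lhg = 0 := by omega
    have q2 : lgg = 0 := by omega
    have q3 : lg = 2 := by omega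
    have q4 : ρ = 2 := by omega
    omega

end Pool.Agent.Helper82.Wilf
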