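import Pool.Agent.Helper82.Wilf.Two
import Pool.Agent.Helper60.Wilf.Main

set_option autoImplicit false

namespace Pool.Agent.Helper82.Wilf

open Finset Pool.Agent.Helper60.Wilf

variable {S : AddSubmonoid ℕ} {c m : ℕ}

theorem congr_eq (H : Sg S c m) {u v : ℕ} (hu : u ∈ insert 0 (A0 S c m))
    (hv : v ∈ insert 0 (A0 S c m)) (h : u ≡ v [MOD m]) : u = v := by
  rcases Nat.le_total u v with h1 | h1
  · obtain ⟨k, hk⟩ := (Nat.modEq_iff_dvd' h1).mp h
    exact (ins_inj H hu hv (j := k) (k := 0) (by rw [mul_comm k m]; omega)).1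
  · obtain ⟨k, hk⟩ := (Nat.modEq_iff_dvd' h1).mp h.symm
    exact (ins_inj H hv hu (j := k) (k := 0) (by rw [mul_comm k m]; omega)).1.symm

/-- a full system of pair sums is impossible for at least two primitive elements -/
theorem perfect (H : Sg S c m) (hall : CP S c m = pairs (XP S c m))
    (hm : m = (XP S c m).card + 1 + (D2 S c m).card) : (XP S c m).card ≤ 1 := by
  classical
  have hm0 := H.hm0
  have hcard := two_mul_card_pairs (XP S c m)
  rw [← hall, CP_card] at hcard
  -- sorted pairs are canonical
  have huniq : ∀ a ∈ XP S c m, ∀ b ∈ XP S c m, ∀ a' ∈ XP S c m, ∀ b' ∈ XP S c m,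
      a ≤ b → a' ≤ b' → a + b = a' + b' → a = a' := by
    intro a ha b hb a' ha' b' hb' h1 h2 h3
    have e1 : (a, b) ∈ can (XP S c m) (D2 S c m) := by
      have : (a, b) ∈ CP S c m := by rw [hall, mem_pairs]; exact ⟨ha, hb, h1⟩
      exact this
    have e2 : (a', b') ∈ can (XP S c m) (D2 S c m) := by
      have : (a', b') ∈ CP S c m := by rw [hall, mem_pairs]; exact ⟨ha', hb', h2⟩
      exact this
    rw [mem_can] at e1 e2
    exact le_antisymm (e1.2.2 a' ha' b' hb' h3.symm) (e2.2.2 a ha b hb h3)
  have hsum : ∀ a ∈ XP S c m, ∀ b ∈ XP S c m, a + b ∈ D2 S c m := by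
    intro a ha b hb
    rcases le_total a b with h | h
    · have : (a, b) ∈ CP S c m := by rw [hall, mem_pairs]; exact ⟨ha, hb, h⟩
      exact (CP_lt H this).2.2.2.1
    · have : (b, a) ∈ CP S c m := by rw [hall, mem_pairs]; exact ⟨hb, ha, h⟩
      rw [add_comm]
      exact (CP_lt H this).2.2.2.1
  have hXpos : ∀ a ∈ XP S c m, m < a := fun a ha => H.ap_gt ((mem_XP H).mp ha).2.1
  have hprim : ∀ a ∈ XP S c m, ∀ x ∈ XP S c m, ∀ y ∈ XP S c m, a ≠ x + y := by
    intro a ha x hx y hy h
    have h1 := ((mem_XP H).mp ha).2.2.2.2 x ((mem_XP H).mp hx).2.1.1 y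
      ((mem_XP H).mp hy).2.1.1 h.symm
    have h2 := hXpos x hx
    have h3 := hXpos y hy
    omega
  set B := insert 0 (XP S c m) with hB
  have h0X : (0 : ℕ) ∉ XP S c m := fun h => by have := hXpos 0 h; omega
  have hBcard : B.card = (XP S c m).card + 1 := card_insert_of_notMem h0X
  have hBsum : ∀ x ∈ B, ∀ y ∈ B, x + y ∈ insert 0 (A0 S c m) := by
    intro x hx y hy
    rw [hB, mem_insert] at hx hy
    have hXA : ∀ a ∈ XP S c m, a ∈ A0 S c m := fun a ha => (mem_A0 H).mpr ((mem_XP H).mp ha).2.1
    rcases hx with rfl | hx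
    · rcases hy with rfl | hy
      · exact mem_insert_self _ _
      · rw [zero_add]; exact mem_insert_of_mem (hXA y hy)
    · rcases hy with rfl | hy
      · rw [add_zero]; exact mem_insert_of_mem (hXA x hx)
      · exact D2_sub H (hsum x hx y hy)
  have hBuniq : ∀ x ∈ B, ∀ y ∈ B, ∀ x' ∈ B, ∀ y' ∈ B, x ≠ y → x + y' = x' + y → x = x' := by
    intro x hx y hy x' hx' y' hy' hne he
    rw [hB, mem_insert] at hx hy hx' hy'
    rcases hx with rfl | hx
    · rcases hy with rfl | hy
      · exact absurd rfl hne
      rcases hx' with rfl | hx'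
      · rfl
      rcases hy' with rfl | hy'
      · have := hXpos y hy; omega
      exact absurd (by omega) (hprim y' hy' x' hx' y hy)
    · rcases hy' with rfl | hy'
      · rcases hx' with rfl | hx'
        · omega
        rcases hy with rfl | hy
        · omega
        exact absurd (by omega) (hprim x hx x' hx' y hy)
      · rcases hx' with rfl | hx'
        · rcases hy with rfl | hy
          · have := hXpos x hx; omega
          exact absurd (by omega) (hprim y hy x hx y' hy')
        rcases hy with rfl | hy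
        · exact absurd (by omega) (hprim x' hx' x hx y' hy')
        rcases le_total x y' with g1 | g1
        · rcases le_total x' y with g2 | g2
          · exact huniq x hx y' hy' x' hx' y hy g1 g2 he
          · have := huniq x hx y' hy' y hy x' hx' g1 g2 (by omega)
            exact absurd this hne
        · rcases le_total x' y with g2 | g2
          · have := huniq y' hy' x hx x' hx' y hy g1 g2 (by omega)
            omega
          · have := huniq y' hy' x hx y hy x' hx' g1 g2 (by omega)
            omega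
  -- differences
  have hle : B.offDiag.card ≤ (Ico 1 m).card := by
    apply card_le_card_of_injOn (fun p => (p.1 + p.2 * (m - 1)) % m)
    · intro p hp
      rw [mem_coe, mem_offDiag] at hp
      rw [mem_coe, mem_Ico]
      refine ⟨?_, Nat.mod_lt _ hm0⟩
      by_contra hc
      have h0 : (p.1 + p.2 * (m - 1)) % m = 0 := by
        have : ¬ 1 ≤ (p.1 + p.2 * (m - 1)) % m := hc
        omega
      have h1 : p.1 ≡ p.2 [MOD m] := by
        have h2 : p.1 + p.2 * (m - 1) + p.2 ≡ 0 + p.2 [MOD m] :=
          Nat.ModEq.add_right _ h0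
        have h3 : p.1 + p.2 * (m - 1) + p.2 = p.1 + p.2 * m := by
          obtain ⟨j, rfl⟩ : ∃ j, m = j + 1 := ⟨m - 1, by omega⟩
          rw [Nat.add_sub_cancel]; ring
        rw [h3, zero_add] at h2
        have h4 : p.1 + p.2 * m ≡ p.1 [MOD m] := by
          unfold Nat.ModEq
          rw [Nat.add_mul_mod_self_right]
        exact h4.symm.trans h2
      have e1 : p.1 ∈ insert 0 (A0 S c m) := by
        have := hBsum p.1 hp.1 0 (mem_insert_self _ _)
        rwa [add_zero] at this
      have e2 : p.2 ∈ insert 0 (A0 S c m) := by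
        have := hBsum p.2 hp.2.1 0 (mem_insert_self _ _)
        rwa [add_zero] at this
      exact hp.2.2 (congr_eq H e1 e2 h1)
    · intro p hp q hq he
      rw [mem_coe, mem_offDiag] at hp hq
      have h1 : p.1 + q.2 ≡ q.1 + p.2 [MOD m] := by
        have h2 : p.1 + p.2 * (m - 1) ≡ q.1 + q.2 * (m - 1) [MOD m] := he
        have h3 := Nat.ModEq.add_right (p.2 + q.2) h2
        have h4 : p.1 + p.2 * (m - 1) + (p.2 + q.2) = p.1 + q.2 + p.2 * m := by
          obtain ⟨j, rfl⟩ : ∃ j, m = j + 1 := ⟨m - 1, by omega⟩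
          rw [Nat.add_sub_cancel]; ring
        have h5 : q.1 + q.2 * (m - 1) + (p.2 + q.2) = q.1 + p.2 + q.2 * m := by
          obtain ⟨j, rfl⟩ : ∃ j, m = j + 1 := ⟨m - 1, by omega⟩
          rw [Nat.add_sub_cancel]; ring
        rw [h4, h5] at h3
        unfold Nat.ModEq at h3 ⊢
        rwa [Nat.add_mul_mod_self_right, Nat.add_mul_mod_self_right] at h3
      have h6 := congr_eq H (hBsum _ hp.1 _ hq.2.1) (hBsum _ hq.1 _ hp.2.1) h1
      have h7 := hBuniq p.1 hp.1 p.2 hp.2.1 q.1 hq.1 q.2 hq.2.1 hp.2.2 h6
      exact Prod.ext h7 (by omega)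
  rw [offDiag_card, hBcard, Nat.card_Ico] at hle
  generalize (XP S c m).card = s at *
  have h2 : (s + 1) * (s + 1) - (s + 1) = s * (s + 1) := by
    have : (s + 1) * (s + 1) = s * (s + 1) + (s + 1) := by ring
    omega
  rw [h2] at hle
  by_contra hc
  have : 2 * (s + 1) ≤ s * (s + 1) := Nat.mul_le_mul_right _ (by omega)
  omega

/-- Wilf's inequality and its equality case when every Apery element is a sum of at most two
minimal generators -/
theorem order_two (H : Sg S c m) (hc0 : c ≠ 0) {G : Finset ℕ} (hG : ∀ a, a ∈ G ↔ Prim S a)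
    (hN : N3 S c m = ∅) :
    c ≤ G.card * (elF S 0 c).card ∧ (c = G.card * (elF S 0 c).card → Concl m G) := by
  classical
  have hm0 := H.hm0
  have hW := wilf_eq H hG
  have hI := ident H
  have hle := CP_sum_le H
  have hEm := Em_le H (Z := ∅) (empty_subset _) (fun z hz => absurd hz (notMem_empty z))
  have hg := card_gens H hG
  have hsub := card_le_card (XP_sub_PA H)
  rw [hN, sum_empty, card_empty] at hW
  rw [card_empty, add_zero] at hEm
  have hmul : ((XP S c m).card + 1) * ∑ x ∈ XP S c m, lam c m x ≤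
      G.card * ∑ x ∈ XP S c m, lam c m x := Nat.mul_le_mul_right _ (by omega)
  have hWn : (G.card : ℤ) * (elF S 0 c).card - c =
      ((G.card : ℤ) * ∑ x ∈ XP S c m, (lam c m x : ℤ) -
        ∑ p ∈ CP S c m, ((lam c m p.1 : ℤ) + lam c m p.2)) +
      ((G.card : ℤ) + 1) * ∑ x ∈ D2 S c m, (lam c m x : ℤ) + (rr c m 0 - (Em S c m).card) +
      (Ep S c m).card := by
    rw [hW]
    have hI' : (∑ p ∈ CP S c m, ((lam c m p.1 : ℤ) + lam c m p.2)) + (Em S c m).card =
      ∑ z ∈ D2 S c m, (lam c m z : ℤ) + lam c m 0 * (D2 S c m).card + (Ep S c m).card := by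
      exact_mod_cast hI
    push_cast
    linear_combination hI'
  have hPnn : (0 : ℤ) ≤ (G.card : ℤ) * ∑ x ∈ XP S c m, (lam c m x : ℤ) -
        ∑ p ∈ CP S c m, ((lam c m p.1 : ℤ) + lam c m p.2) := by
    have : ∑ p ∈ CP S c m, (lam c m p.1 + lam c m p.2) ≤ G.card * ∑ x ∈ XP S c m, lam c m x :=
      hle.trans hmul
    have h' : ((∑ p ∈ CP S c m, (lam c m p.1 + lam c m p.2) : ℕ) : ℤ) ≤
      ((G.card * ∑ x ∈ XP S c m, lam c m x : ℕ) : ℤ) := by exact_mod_cast this
    push_cast at h'
    linarith
  have hDnn : (0 : ℤ) ≤ ((G.card : ℤ) + 1) * ∑ x ∈ D2 S c m, (lam c m x : ℤ) := by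
    apply mul_nonneg (by positivity)
    exact sum_nonneg (fun _ _ => by positivity)
  have hEnn : (0 : ℤ) ≤ (rr c m 0 : ℤ) - (Em S c m).card := by
    have : ((Em S c m).card : ℤ) ≤ rr c m 0 := by exact_mod_cast hEm
    linarith
  have hpnn : (0 : ℤ) ≤ ((Ep S c m).card : ℤ) := by positivity
  constructor
  · have : (c : ℤ) ≤ G.card * (elF S 0 c).card := by linarith
    exact_mod_cast this
  · intro heq
    have heq' : (c : ℤ) = G.card * (elF S 0 c).card := by exact_mod_cast heq
    rcases Finset.eq_empty_or_nonempty (XP S c m) with hX | hX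
    · -- no primitive elements below the conductor
      right
      have hD : D2 S c m = ∅ := by
        rw [Finset.eq_empty_iff_forall_notMem]
        intro z hz
        obtain ⟨a, ha, -⟩ := (mem_D2.mp hz).2
        rw [hX] at ha
        exact absurd ha (notMem_empty a)
      have hno : ∀ s < c, ¬ Ap S m s := by
        intro s hs hap
        by_cases hp : Prim S s
        · have : s ∈ XP S c m := (mem_XP H).mpr ⟨hs, hap, hp⟩
          rw [hX] at this
          exact absurd this (notMem_empty s)
        · have h1 : s ∈ DD S c m := (mem_DD H).mpr ⟨hap, hp⟩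
          by_cases h2 : Two S c m s
          · have : s ∈ D2 S c m := mem_D2.mpr ⟨h1, h2⟩
            rw [hD] at this
            exact absurd this (notMem_empty s)
          · have : s ∈ N3 S c m := mem_N3.mpr ⟨h1, h2⟩
            rw [hN] at this
            exact absurd this (notMem_empty s)
      rw [hX, hD, sum_empty, card_empty] at hW
      have hr0 : rr c m 0 = 0 := by
        have : (rr c m 0 : ℤ) = 0 := by
          push_cast at hW
          linarith
        exact_mod_cast this
      have h6 := (rr_spec (c := c) H.hm0 (show 0 < c + m by omega)).1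
      rw [hr0, add_zero, zero_add] at h6
      have hK : 1 ≤ lam c m 0 := by
        rcases Nat.eq_zero_or_pos (lam c m 0) with h | h
        · rw [h] at h6; omega
        · exact h
      generalize lam c m 0 = K at *
      subst h6
      obtain ⟨g1, g2⟩ := family hK H hno hG
      exact ⟨g1, K, g2⟩
    · left
      have hPpos : 0 < ∑ x ∈ XP S c m, lam c m x :=
        sum_pos (fun x hx => lam_pos H.hm0 ((mem_XP H).mp hx).1) hX
      have hz1 : (G.card : ℤ) * ∑ x ∈ XP S c m, (lam c m x : ℤ) -
        ∑ p ∈ CP S c m, ((lam c m p.1 : ℤ) + lam c m p.2) = 0 := by linarith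
      have hz : G.card * ∑ x ∈ XP S c m, lam c m x =
          ∑ p ∈ CP S c m, (lam c m p.1 + lam c m p.2) := by
        have : ((G.card * ∑ x ∈ XP S c m, lam c m x : ℕ) : ℤ) =
            ((∑ p ∈ CP S c m, (lam c m p.1 + lam c m p.2) : ℕ) : ℤ) := by
          push_cast; linarith
        exact_mod_cast this
      have hall := CP_all H (by rw [← hz]; exact hmul)
      have hGs : G.card = (XP S c m).card + 1 := by
        have h1 : G.card * ∑ x ∈ XP S c m, lam c m x ≤
          ((XP S c m).card + 1) * ∑ x ∈ XP S c m, lam c m x := by rw [hz]; exact hle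
        have := Nat.le_of_mul_le_mul_right h1 hPpos
        omega
      have hm : m = (XP S c m).card + 1 + (D2 S c m).card := by
        have h3 := card_A0 H
        have h4 := card_parts (S := S) (c := c) (m := m)
        have h5 := card_DD (S := S) (c := c) (m := m)
        rw [hN, card_empty] at h5
        omega
      have h1 := perfect H hall hm
      have h2 : 0 < (XP S c m).card := card_pos.mpr hX
      omega

end Pool.Agent.Helper82.Wilf
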