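import Pool.Agent.Helper60.Wilf.Three
import Pool.Agent.Helper82.Wilf.OrderTwo
import Pool.Agent.Helper82.Wilf.AlphaMain
import Pool.Agent.Helper82.Wilf.Beta

set_option autoImplicit false

namespace Pool.Agent.Helper82.Wilf

open Finset Pool.Agent.Helper60.Wilf

variable {S : AddSubmonoid ℕ} {c m : ℕ}

/-- one generator -/
theorem concl_one (H : Sg S c m) {G : Finset ℕ} (hG : ∀ a, a ∈ G ↔ Prim S a)
    (h1 : G.card ≤ 1) : Concl m G := by
  have h2 := card_gens H hG
  have h3 : PA S c m = ∅ := by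
    rw [← card_eq_zero]; omega
  have h4 : A0 S c m = ∅ := by
    rw [eq_empty_iff_forall_notMem]
    intro s hs
    rw [mem_A0 H] at hs
    obtain ⟨u, hu, hup, -⟩ := prim_div H s hs
    have : u ∈ PA S c m := (mem_PA H).mpr ⟨hu, hup⟩
    rw [h3] at this
    exact absurd this (notMem_empty u)
  have h5 := card_A0 H
  rw [h4, card_empty] at h5
  have hm0 := H.hm0
  have hm1 : m = 1 := by omega
  right
  refine ⟨by omega, 0, ?_⟩
  rw [gens H hG, h3, hm1]
  rfl

/-- The equality case of Wilf's inequality when the multiplicity is at most three times the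
embedding dimension. -/
theorem three_d (H : Sg S c m) (hc0 : c ≠ 0) {G : Finset ℕ} (hG : ∀ a, a ∈ G ↔ Prim S a)
    (hm3 : m ≤ 3 * G.card) (hW : c = G.card * (elF S 0 c).card) : Concl m G := by
  classical
  rcases Nat.lt_or_ge (3 * m) c with hc | hc
  swap
  · exact main H hc hc0 hG hW
  have hm0 := H.hm0
  rcases Nat.lt_or_ge G.card 2 with h1 | h1
  · exact concl_one H hG (by omega)
  rcases Nat.lt_or_ge G.card 3 with h2 | h2
  · left; omega
  have hq : 4 ≤ lam c m 0 := by
    unfold lam
    rw [Nat.le_div_iff_mul_le hm0]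
    omega
  have h3 := card_A0 H
  have h4 := card_parts (S := S) (c := c) (m := m)
  have h5 := card_gens H hG
  have h6 := card_DD (S := S) (c := c) (m := m)
  have hL : ∑ x ∈ A0 S c m, lam c m x ≤ 2 * lam c m 0 := by
    have h7 := wilf_eq H hG
    have h8 : (G.card : ℤ) * (elF S 0 c).card - c = 0 := by
      have : (c : ℤ) = ((G.card * (elF S 0 c).card : ℕ) : ℤ) := by exact_mod_cast hW
      rw [this]; push_cast; ring
    have h9 : (((∑ x ∈ A0 S c m, lam c m x : ℕ)) : ℤ) =
        ∑ x ∈ XP S c m, (lam c m x : ℤ) + ∑ x ∈ D2 S c m, (lam c m x : ℤ) +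
        ∑ x ∈ N3 S c m, (lam c m x : ℤ) := by
      rw [sum_A0, sum_PA H, sum_DD]; push_cast; ring
    rw [h8, ← h9] at h7
    have hn : (((D2 S c m).card : ℤ) + (N3 S c m).card) ≤ 2 * G.card := by
      have : (D2 S c m).card + (N3 S c m).card ≤ 2 * G.card := by omega
      exact_mod_cast this
    have hp : (0 : ℤ) < G.card := by exact_mod_cast (by omega : 0 < G.card)
    have h10 : (G.card : ℤ) * (((∑ x ∈ A0 S c m, lam c m x : ℕ)) : ℤ) ≤
        G.card * (2 * lam c m 0) := by
      have h11 : (lam c m 0 : ℤ) * ((D2 S c m).card + (N3 S c m).card) ≤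
          lam c m 0 * (2 * G.card) :=
        mul_le_mul_of_nonneg_left hn (by positivity)
      have h12 : (0 : ℤ) ≤ rr c m 0 := by positivity
      linarith
    have h13 := le_of_mul_le_mul_left h10 hp
    exact_mod_cast h13
  by_cases hN : N3 S c m = ∅
  · exact (order_two H hc0 hG hN).2 hW
  · exfalso
    by_cases hno : ∀ u w, Ap S m u → Prim S u → Ap S m w → Prim S w → u ≠ w →
        ¬ Ap S m (u + (u + w))
    · exact beta H hG h2 hq hL hno hN hW.symm
    · push Not at hno
      obtain ⟨u, w, hu, hup, hw, hwp, hne, h⟩ := hno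
      exact alpha ⟨H, hq, hL, hu, hup, hw, hwp, hne, h⟩ hG hm3 hW.symm

end Pool.Agent.Helper82.Wilf
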