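import Pool.Agent.Helper82.Wilf.Basic

set_option autoImplicit false

namespace Pool.Agent.Helper82.Wilf

open Finset Pool.Agent.Helper60.Wilf

variable {S : AddSubmonoid ℕ} {c m : ℕ}

/-- primitive Apery elements below the conductor -/
noncomputable def XP (S : AddSubmonoid ℕ) (c m : ℕ) : Finset ℕ := prF S m 0 c

/-- primitive Apery elements -/
noncomputable def PA (S : AddSubmonoid ℕ) (c m : ℕ) : Finset ℕ := prF S m 0 (c + m)

/-- decomposable Apery elements -/
noncomputable def DD (S : AddSubmonoid ℕ) (c m : ℕ) : Finset ℕ := deF S m 0 (c + m)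

theorem mem_XP (_H : Sg S c m) {s : ℕ} : s ∈ XP S c m ↔ s < c ∧ Ap S m s ∧ Prim S s := by
  unfold XP; rw [mem_prF]
  exact ⟨fun h => ⟨h.1.1.2, h.1.2, h.2⟩, fun h => ⟨⟨⟨Nat.zero_le _, h.1⟩, h.2.1⟩, h.2.2⟩⟩

theorem mem_PA (H : Sg S c m) {s : ℕ} : s ∈ PA S c m ↔ Ap S m s ∧ Prim S s := by
  unfold PA; rw [mem_prF]
  exact ⟨fun h => ⟨h.1.2, h.2⟩, fun h => ⟨⟨⟨Nat.zero_le _, H.ap_lt h.1⟩, h.1⟩, h.2⟩⟩

theorem mem_DD (H : Sg S c m) {s : ℕ} : s ∈ DD S c m ↔ Ap S m s ∧ ¬ Prim S s := by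
  unfold DD; rw [mem_deF]
  exact ⟨fun h => ⟨h.1.2, h.2⟩, fun h => ⟨⟨⟨Nat.zero_le _, H.ap_lt h.1⟩, h.1⟩, h.2⟩⟩

/-- sum of two primitive Apery elements -/
def Two (S : AddSubmonoid ℕ) (c m z : ℕ) : Prop := ∃ a ∈ XP S c m, ∃ b ∈ XP S c m, a + b = z

noncomputable def D2 (S : AddSubmonoid ℕ) (c m : ℕ) : Finset ℕ := by
  classical
  exact (DD S c m).filter (fun z => Two S c m z)

noncomputable def N3 (S : AddSubmonoid ℕ) (c m : ℕ) : Finset ℕ := by
  classical
  exact (DD S c m).filter (fun z => ¬ Two S c m z)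

theorem mem_D2 {z : ℕ} : z ∈ D2 S c m ↔ z ∈ DD S c m ∧ Two S c m z := by
  classical
  unfold D2; rw [mem_filter]

theorem mem_N3 {z : ℕ} : z ∈ N3 S c m ↔ z ∈ DD S c m ∧ ¬ Two S c m z := by
  classical
  unfold N3; rw [mem_filter]

theorem card_DD : (DD S c m).card = (D2 S c m).card + (N3 S c m).card := by
  classical
  unfold D2 N3
  exact (card_filter_add_card_filter_not _).symm

theorem sum_A0 : ∑ x ∈ A0 S c m, lam c m x =
    ∑ x ∈ PA S c m, lam c m x + ∑ x ∈ DD S c m, lam c m x := by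
  classical
  unfold A0 PA DD prF deF
  exact (sum_filter_add_sum_filter_not _ _ _).symm

theorem sum_DD : ∑ x ∈ DD S c m, lam c m x =
    ∑ x ∈ D2 S c m, lam c m x + ∑ x ∈ N3 S c m, lam c m x := by
  classical
  unfold D2 N3
  exact (sum_filter_add_sum_filter_not _ _ _).symm

theorem XP_sub_PA (H : Sg S c m) : XP S c m ⊆ PA S c m := by
  intro s hs
  rw [mem_XP H] at hs
  rw [mem_PA H]; exact hs.2

theorem sum_PA (H : Sg S c m) : ∑ x ∈ PA S c m, lam c m x = ∑ x ∈ XP S c m, lam c m x := by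
  symm
  apply sum_subset (XP_sub_PA H)
  intro x hx hnx
  rw [mem_PA H] at hx
  rw [mem_XP H] at hnx
  have h1 := H.ap_lt hx.1
  apply lam_eq_zero H.hm0 h1
  by_contra hc
  exact hnx ⟨by omega, hx⟩

theorem card_parts : (A0 S c m).card = (PA S c m).card + (DD S c m).card := by
  unfold A0 PA DD
  exact card_pr_de 0 (c + m)

theorem gens (H : Sg S c m) {G : Finset ℕ} (hG : ∀ a, a ∈ G ↔ Prim S a) :
    G = insert m (PA S c m) := by
  ext a
  rw [hG, mem_insert, mem_PA H]
  constructor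
  · intro ha
    by_cases h : a = m
    · exact Or.inl h
    · exact Or.inr ⟨H.prim_ap ha h, ha⟩
  · rintro (rfl | h)
    · exact H.prim_m
    · exact h.2

theorem card_gens (H : Sg S c m) {G : Finset ℕ} (hG : ∀ a, a ∈ G ↔ Prim S a) :
    G.card = (PA S c m).card + 1 := by
  rw [gens H hG, card_insert_of_notMem]
  rw [mem_PA H]
  rintro ⟨h, -⟩
  exact lt_irrefl _ (H.ap_gt h)

/-- Wilf's number in terms of `lam` -/
theorem wilf_eq (H : Sg S c m) {G : Finset ℕ} (hG : ∀ a, a ∈ G ↔ Prim S a) :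
    (G.card : ℤ) * (elF S 0 c).card - c =
      G.card * (∑ x ∈ XP S c m, (lam c m x : ℤ) + ∑ x ∈ D2 S c m, (lam c m x : ℤ) +
        ∑ x ∈ N3 S c m, (lam c m x : ℤ)) + rr c m 0
        - lam c m 0 * ((D2 S c m).card + (N3 S c m).card) := by
  have h1 := card_left H
  have h2 := card_gens H hG
  have h3 := card_A0 H
  have h4 := card_parts (S := S) (c := c) (m := m)
  have h5 := card_DD (S := S) (c := c) (m := m)
  have h6 := (rr_spec (c := c) H.hm0 (show 0 < c + m by have := H.hm0; omega)).1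
  rw [sum_A0, sum_PA H, sum_DD] at h1
  have hm : (m : ℤ) = G.card + ((D2 S c m).card + (N3 S c m).card) := by
    have : m = G.card + ((D2 S c m).card + (N3 S c m).card) := by omega
    exact_mod_cast this
  have hc : (c : ℤ) = lam c m 0 * m - rr c m 0 := by
    have : 0 + lam c m 0 * m = c + rr c m 0 := h6
    have h7 : ((lam c m 0 * m : ℕ) : ℤ) = ((c + rr c m 0 : ℕ) : ℤ) := by
      rw [← this]; push_cast; ring
    push_cast at h7
    linarith
  rw [h1]
  push_cast
  have e : (c : ℤ) = lam c m 0 * (G.card + ((D2 S c m).card + (N3 S c m).card)) - rr c m 0 := by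
    rw [← hm]; exact hc
  linear_combination (-1 : ℤ) * e

/-- sum over the ordered pairs of a set -/
theorem sum_pairs (X : Finset ℕ) (g : ℕ → ℕ) :
    ∑ p ∈ pairs X, (g p.1 + g p.2) = (X.card + 1) * ∑ x ∈ X, g x := by
  classical
  unfold pairs
  rw [sum_filter, sum_product]
  have h1 : ∀ x ∈ X, ∑ y ∈ X, (if x ≤ y then (g x + g y) else 0) =
      ∑ y ∈ X, (if x ≤ y then g x else 0) + ∑ y ∈ X, (if x ≤ y then g y else 0) := by
    intro x _
    rw [← sum_add_distrib]
    apply sum_congr rfl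
    intro y _
    split_ifs <;> rfl
  rw [sum_congr rfl h1, sum_add_distrib, sum_comm (f := fun x y => if x ≤ y then g y else 0),
    ← sum_add_distrib]
  have h2 : ∀ x ∈ X, (∑ y ∈ X, (if x ≤ y then g x else 0) + ∑ y ∈ X, (if y ≤ x then g x else 0))
      = X.card * g x + g x := by
    intro x hx
    rw [← sum_add_distrib]
    have h3 : ∀ y ∈ X, ((if x ≤ y then g x else 0) + (if y ≤ x then g x else 0)) =
        g x + (if y = x then g x else 0) := by
      intro y _
      rcases lt_trichotomy x y with h | h | h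
      · rw [if_pos (le_of_lt h), if_neg (not_le.mpr h), if_neg (by omega)]
      · subst h; simp
      · rw [if_neg (not_le.mpr h), if_pos (le_of_lt h), if_neg (by omega)]; ring
    rw [sum_congr rfl h3, sum_add_distrib, sum_const, smul_eq_mul, sum_ite_eq' X x, if_pos hx]
  rw [sum_congr rfl h2, sum_add_distrib, ← mul_sum]
  ring

/-- canonical pairs of primitive elements with sum in the Apery set -/
noncomputable def CP (S : AddSubmonoid ℕ) (c m : ℕ) : Finset (ℕ × ℕ) := can (XP S c m) (D2 S c m)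

theorem CP_sum (g : ℕ → ℕ) : ∑ p ∈ CP S c m, g (p.1 + p.2) = ∑ z ∈ D2 S c m, g z := by
  classical
  apply sum_bij (fun p _ => p.1 + p.2)
  · intro p hp; exact (mem_can.mp hp).2.1
  · intro p hp q hq he
    unfold CP at hp hq
    rw [mem_can] at hp hq
    have h1 := hp.2.2 q.1 hq.1.1 q.2 hq.1.2.1 he.symm
    have h2 := hq.2.2 p.1 hp.1.1 p.2 hp.1.2.1 he
    have h3 : p.1 = q.1 := le_antisymm h1 h2
    refine Prod.ext h3 ?_
    have he' : p.1 + p.2 = q.1 + q.2 := he
    omega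
  · intro z hz
    obtain ⟨p, hp, hpz⟩ := exists_can hz (mem_D2.mp hz).2
    exact ⟨p, hp, hpz⟩
  · intro p _; rfl

theorem CP_card : (CP S c m).card = (D2 S c m).card :=
  card_can (fun _ hz => (mem_D2.mp hz).2)

noncomputable def Em (S : AddSubmonoid ℕ) (c m : ℕ) : Finset (ℕ × ℕ) :=
  (CP S c m).filter (fun p => lam c m p.1 + lam c m p.2 + 1 = lam c m (p.1 + p.2) + lam c m 0)

noncomputable def Ep (S : AddSubmonoid ℕ) (c m : ℕ) : Finset (ℕ × ℕ) :=
  (CP S c m).filter (fun p => lam c m p.1 + lam c m p.2 = lam c m (p.1 + p.2) + lam c m 0 + 1)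

theorem CP_lt (H : Sg S c m) {p : ℕ × ℕ} (hp : p ∈ CP S c m) :
    p.1 ∈ XP S c m ∧ p.2 ∈ XP S c m ∧ p.1 ≤ p.2 ∧ p.1 + p.2 ∈ D2 S c m ∧
      p.1 + p.2 < c + m := by
  unfold CP at hp
  rw [mem_can] at hp
  refine ⟨hp.1.1, hp.1.2.1, hp.1.2.2, hp.2.1, ?_⟩
  exact H.ap_lt ((mem_DD H).mp (mem_D2.mp hp.2.1).1).1

/-- first identity -/
theorem ident (H : Sg S c m) :
    ∑ p ∈ CP S c m, (lam c m p.1 + lam c m p.2) + (Em S c m).card =
      ∑ z ∈ D2 S c m, lam c m z + lam c m 0 * (D2 S c m).card + (Ep S c m).card := by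
  classical
  have h1 : ∑ z ∈ D2 S c m, lam c m z + lam c m 0 * (D2 S c m).card =
      ∑ p ∈ CP S c m, (lam c m (p.1 + p.2) + lam c m 0) := by
    rw [sum_add_distrib, sum_const, smul_eq_mul, CP_card, CP_sum (fun z => lam c m z)]
    ring
  rw [h1]
  unfold Em Ep
  rw [card_filter, card_filter, ← sum_add_distrib, ← sum_add_distrib]
  apply sum_congr rfl
  intro p hp
  have h2 := CP_lt H hp
  rcases rule (c := c) H.hm0 h2.2.2.2.2 with h | h | h
  · rw [if_pos h.1, if_neg (by omega)]; omega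
  · rw [if_neg (by omega), if_neg (by omega)]; omega
  · rw [if_neg (by omega), if_pos h.1]; omega

theorem CP_sum_le (_H : Sg S c m) :
    ∑ p ∈ CP S c m, (lam c m p.1 + lam c m p.2) ≤
      ((XP S c m).card + 1) * ∑ x ∈ XP S c m, lam c m x := by
  rw [← sum_pairs]
  exact sum_le_sum_of_subset (can_sub_pairs _ _)

/-- equality forces all pairs to be canonical -/
theorem CP_all (H : Sg S c m)
    (h : ((XP S c m).card + 1) * ∑ x ∈ XP S c m, lam c m x ≤
      ∑ p ∈ CP S c m, (lam c m p.1 + lam c m p.2)) : CP S c m = pairs (XP S c m) := by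
  classical
  by_contra hne
  have hss : CP S c m ⊂ pairs (XP S c m) :=
    Finset.ssubset_iff_subset_ne.mpr ⟨can_sub_pairs _ _, hne⟩
  obtain ⟨p, hp, hnp⟩ := exists_of_ssubset hss
  have h1 : ∑ p ∈ CP S c m, (lam c m p.1 + lam c m p.2) <
      ∑ p ∈ pairs (XP S c m), (lam c m p.1 + lam c m p.2) := by
    apply sum_lt_sum_of_subset (can_sub_pairs _ _) hp hnp
    · rw [mem_pairs, mem_XP H] at hp
      have := lam_pos (c := c) H.hm0 hp.1.1
      omega
    · intro _ _ _; exact Nat.zero_le _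
  rw [sum_pairs] at h1
  omega

theorem D2_sub (H : Sg S c m) : D2 S c m ⊆ insert 0 (A0 S c m) := by
  intro z hz
  rw [mem_insert, mem_A0 H]
  exact Or.inr ((mem_DD H).mp (mem_D2.mp hz).1).1

/-- the sums of the pairs in `Em` -/
theorem Em_image (_H : Sg S c m) :
    ((Em S c m).image (fun p => p.1 + p.2)).card = (Em S c m).card := by
  classical
  apply card_image_of_injOn
  intro p hp q hq he
  have hp' := (mem_filter.mp (Finset.mem_coe.mp hp)).1
  have hq' := (mem_filter.mp (Finset.mem_coe.mp hq)).1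
  unfold CP at hp' hq'
  rw [mem_can] at hp' hq'
  have he' : p.1 + p.2 = q.1 + q.2 := he
  have h1 := hp'.2.2 q.1 hq'.1.1 q.2 hq'.1.2.1 he'.symm
  have h2 := hq'.2.2 p.1 hp'.1.1 p.2 hp'.1.2.1 he'
  have h3 : p.1 = q.1 := le_antisymm h1 h2
  exact Prod.ext h3 (by omega)

/-- at most `ρ` sums have defect `-1`, together with any further set `Z` of Apery elements with
residue at least `m - ρ` -/
theorem Em_le (H : Sg S c m) {Z : Finset ℕ} (hZ : Z ⊆ N3 S c m)
    (h : ∀ z ∈ Z, m ≤ rr c m z + rr c m 0) : (Em S c m).card + Z.card ≤ rr c m 0 := by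
  classical
  rw [← Em_image H, ← card_union_of_disjoint]
  · apply card_hi H
    · intro z hz
      rcases mem_union.mp hz with hz | hz
      · obtain ⟨p, hp, rfl⟩ := mem_image.mp hz
        exact D2_sub H (CP_lt H (mem_filter.mp hp).1).2.2.2.1
      · rw [mem_insert, mem_A0 H]
        exact Or.inr ((mem_DD H).mp (mem_N3.mp (hZ hz)).1).1
    · intro z hz
      rcases mem_union.mp hz with hz | hz
      · obtain ⟨p, hp, rfl⟩ := mem_image.mp hz
        obtain ⟨h1, h2⟩ := mem_filter.mp hp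
        have h3 := rule (c := c) H.hm0 (CP_lt H h1).2.2.2.2
        omega
      · exact h z hz
  · rw [disjoint_left]
    intro z hz hz'
    obtain ⟨p, hp, rfl⟩ := mem_image.mp hz
    have h1 := (mem_D2.mp (CP_lt H (mem_filter.mp hp).1).2.2.2.1).2
    exact (mem_N3.mp (hZ hz')).2 h1

end Pool.Agent.Helper82.Wilf
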